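import Pool.Agent.PP5X.DsE

/-!
# PP5X/DsF: (N1), the isotropic `x` of a box with small determinant
-/

set_option autoImplicit false

namespace Pool.Agent.PP5X

open Finset Pool.Agent.PP5L

/-- (N1) -/
theorem dsm_count {ε : ℝ} (hε : 0 < ε) : ∃ C : ℝ, 0 < C ∧ ∀ (N : ℕ) (e : ℝ)
    (X : Finset (Fin 10 → ℤ)), 1 ≤ N → 0 ≤ e →
    (∀ x ∈ X, (∀ j, |x j| ≤ N) ∧ FF x = 0 ∧ |(((SS x).det : ℤ) : ℝ)| ≤ e * (N : ℝ) ^ 4) →
    (X.card : ℝ) ≤ C * (N : ℝ) ^ ε * ((N : ℝ) ^ (15 / 2 : ℝ) + √e * (N : ℝ) ^ 8) := by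
  classical
  obtain ⟨c1, hc1, hgood⟩ := small_w (ε := ε / 2) (by positivity)
  obtain ⟨c2, hc2, hbad⟩ := bad_count (ε := ε / 2) (by positivity)
  obtain ⟨c3, hc3, hfix⟩ := fix_w (ε := ε / 2) (by positivity)
  obtain ⟨c4, hc4, hmw⟩ := sum_mw (ε := ε / 2) (by positivity)
  obtain ⟨c5, hc5, hfv⟩ := sum_fv (ε := ε / 2) (by positivity)
  refine ⟨27 * c1 + c2 * (27 * c3) + c1 * √(c4 * c5), by positivity, ?_⟩
  intro N e X hN he hX
  have hN1 : (1 : ℝ) ≤ N := by exact_mod_cast hN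
  have hN0 : (0 : ℝ) ≤ N := by linarith
  have hNp : (0 : ℝ) < N := by linarith
  set W := X.image wx with hW
  have hWb : ∀ w ∈ W, |w.1| ≤ N ∧ |w.2.1| ≤ N ∧ |w.2.2| ≤ N := by
    intro w hw
    rw [hW, Finset.mem_image] at hw
    obtain ⟨x, hx, rfl⟩ := hw
    have := (hX x hx).1
    exact ⟨this 6, this 0, this 1⟩
  choose! vf hvp hvo hvV using fun w (hw : w ∈ W) =>
    siegel3p N hN w (hWb w hw).1 (hWb w hw).2.1 (hWb w hw).2.2
  have hv0 : ∀ w ∈ W, vf w ≠ 0 := by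
    intro w hw h0
    obtain ⟨a, b, c, h⟩ := hvp w hw
    rw [h0] at h
    simp at h
  set Bad : ℤ × (ℤ × ℤ) → Prop := fun w => w.2.1 * w.2.2 = 0 ∨ mw w = 0 ∨ fv (vf w) = 0 with hBad
  have hsum : (X.card : ℝ) = ∑ w ∈ W, ((X.filter (fun x => wx x = w)).card : ℝ) := by
    have := Finset.card_eq_sum_card_image wx X
    exact_mod_cast this
  have hsplit : ∑ w ∈ W, ((X.filter (fun x => wx x = w)).card : ℝ) =
      ∑ w ∈ W.filter Bad, ((X.filter (fun x => wx x = w)).card : ℝ) +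
      ∑ w ∈ W.filter (fun w => ¬ Bad w), ((X.filter (fun x => wx x = w)).card : ℝ) :=
    (Finset.sum_filter_add_sum_filter_not W _ _).symm
  have hWc : ((W.filter (fun w => ¬ Bad w)).card : ℝ) ≤ 27 * (N : ℝ) ^ 3 := by
    have h1 : W.filter (fun w => ¬ Bad w) ⊆ bxN N ×ˢ (bxN N ×ˢ bxN N) := by
      intro w hw
      have := hWb w (Finset.mem_filter.1 hw).1
      exact Finset.mem_product.2 ⟨mem_bxN.2 this.1, Finset.mem_product.2
        ⟨mem_bxN.2 this.2.1, mem_bxN.2 this.2.2⟩⟩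
    have h2 := Finset.card_le_card h1
    rw [Finset.card_product, Finset.card_product, card_bxN] at h2
    have h3 : ((W.filter (fun w => ¬ Bad w)).card : ℝ) ≤ (2 * N + 1) * ((2 * N + 1) * (2 * N + 1)) := by
      exact_mod_cast h2
    have h4 : (2 * (N : ℝ) + 1) ≤ 3 * N := by linarith
    calc _ ≤ (2 * (N : ℝ) + 1) * ((2 * N + 1) * (2 * N + 1)) := h3
      _ ≤ (3 * N) * ((3 * N) * (3 * N)) := by gcongr
      _ = _ := by ring
  have hN4 : (0 : ℝ) ≤ e * (N : ℝ) ^ 4 := by positivity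
  have hg : ∀ w ∈ W.filter (fun w => ¬ Bad w), ((X.filter (fun x => wx x = w)).card : ℝ) ≤
      c1 * (N : ℝ) ^ (9 / 2 + ε / 2) * (1 + √(e * (N : ℝ) ^ 4) *
        (√(1 / |((mw w : ℤ) : ℝ)|) * √(1 / |((fv (vf w) : ℤ) : ℝ)|))) := by
    intro w hw
    obtain ⟨hwW, hnb⟩ := Finset.mem_filter.1 hw
    simp only [hBad, not_or] at hnb
    obtain ⟨n1, n2, n3⟩ := hnb
    have h1 := hgood N (X.filter (fun x => wx x = w)) w (vf w) (e * (N : ℝ) ^ 4) hN (hv0 w hwW) hN4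
      (hvo w hwW) (hvV w hwW) (mul_ne_zero n3 n2) (by
        intro x hx
        obtain ⟨hx1, hx2⟩ := Finset.mem_filter.1 hx
        exact ⟨(hX x hx1).1, (hX x hx1).2.1, hx2, (hX x hx1).2.2⟩)
    refine h1.trans (le_of_eq ?_)
    have h2 : e * (N : ℝ) ^ 4 / |((fv (vf w) * mw w : ℤ) : ℝ)| =
        (e * (N : ℝ) ^ 4) * ((1 / |((mw w : ℤ) : ℝ)|) * (1 / |((fv (vf w) : ℤ) : ℝ)|)) := by
      push_cast
      rw [abs_mul]
      rw [one_div_mul_one_div, mul_one_div]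
      congr 1
      ring
    rw [h2, Real.sqrt_mul hN4,
      Real.sqrt_mul (show (0 : ℝ) ≤ 1 / |((mw w : ℤ) : ℝ)| by positivity)]
  have hb : ∀ w ∈ W.filter Bad, ((X.filter (fun x => wx x = w)).card : ℝ) ≤
      27 * c3 * (N : ℝ) ^ (5 + ε / 2) := by
    intro w hw
    have h1 := hfix N (X.filter (fun x => wx x = w)) w (bxN N ×ˢ (bxN N ×ˢ bxN N)) hN (by
      intro x hx
      obtain ⟨hx1, hx2⟩ := Finset.mem_filter.1 hx
      have hb := (hX x hx1).1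
      refine ⟨fun j => ?_, hb 0, hb 1, hb 6, hb 4, hb 5, hb 7, hb 8, (hX x hx1).2.1, hx2, ?_⟩
      · have := hb j; omega
      · exact Finset.mem_product.2 ⟨mem_bxN.2 (hb 2), Finset.mem_product.2
          ⟨mem_bxN.2 (hb 3), mem_bxN.2 (hb 9)⟩⟩)
    rw [Finset.card_product, Finset.card_product, card_bxN] at h1
    have h2 : (((2 * N + 1) * ((2 * N + 1) * (2 * N + 1)) : ℕ) : ℝ) ≤ 27 * (N : ℝ) ^ 3 := by
      push_cast
      have h4 : (2 * (N : ℝ) + 1) ≤ 3 * N := by linarith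
      calc (2 * (N : ℝ) + 1) * ((2 * N + 1) * (2 * N + 1)) ≤ (3 * N) * ((3 * N) * (3 * N)) := by gcongr
        _ = _ := by ring
    calc _ ≤ (((2 * N + 1) * ((2 * N + 1) * (2 * N + 1)) : ℕ) : ℝ) * (c3 * (N : ℝ) ^ (2 + ε / 2)) := h1
      _ ≤ 27 * (N : ℝ) ^ 3 * (c3 * (N : ℝ) ^ (2 + ε / 2)) :=
          mul_le_mul_of_nonneg_right h2 (by positivity)
      _ = 27 * c3 * ((N : ℝ) ^ 3 * (N : ℝ) ^ (2 + ε / 2)) := by ring
      _ = _ := by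
          congr 1
          rw [← Real.rpow_natCast (N : ℝ) 3, ← Real.rpow_add hNp]
          congr 1; push_cast; ring
  have hbc := hbad N vf (W.filter Bad) hN (by
    intro w hw
    obtain ⟨hwW, hbw⟩ := Finset.mem_filter.1 hw
    obtain ⟨a1, a2, a3⟩ := hWb w hwW
    refine ⟨a1, a2, a3, hv0 w hwW, hvo w hwW, hvV w hwW, ?_⟩
    rcases hbw with h | h | h
    · exact Or.inl h
    · exact Or.inr (Or.inl h)
    · exact Or.inr (Or.inr (Or.inl h)))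
  -- sums over the good `w`
  set Wg := W.filter (fun w => ¬ Bad w) with hWg
  have hWgm : ∀ w ∈ Wg, w.2.1 * w.2.2 ≠ 0 ∧ mw w ≠ 0 ∧ fv (vf w) ≠ 0 := by
    intro w hw
    obtain ⟨-, hnb⟩ := Finset.mem_filter.1 hw
    simp only [hBad, not_or] at hnb
    exact hnb
  have s1 := hmw N Wg hN (by
    intro w hw
    obtain ⟨hwW, -⟩ := Finset.mem_filter.1 hw
    obtain ⟨a1, a2, a3⟩ := hWb w hwW
    obtain ⟨n1, n2, n3⟩ := hWgm w hw
    exact ⟨a1, a2, a3, n1, n2⟩)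
  have s2 := hfv N Wg vf hN (by
    intro w hw
    obtain ⟨hwW, -⟩ := Finset.mem_filter.1 hw
    obtain ⟨a1, a2, a3⟩ := hWb w hwW
    obtain ⟨n1, n2, n3⟩ := hWgm w hw
    exact ⟨a1, a2, a3, hvp w hwW, hvo w hwW, hvV w hwW, n3⟩)
  have s3 : ∑ w ∈ Wg, √(1 / |((mw w : ℤ) : ℝ)|) * √(1 / |((fv (vf w) : ℤ) : ℝ)|) ≤
      √(c4 * c5) * (N : ℝ) ^ (3 / 2 + ε / 2) := by
    refine (Real.sum_sqrt_mul_sqrt_le Wg (fun w => by positivity) (fun w => by positivity)).trans ?_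
    rw [← Real.sqrt_mul (Finset.sum_nonneg fun w _ => by positivity)]
    have h1 : (∑ w ∈ Wg, 1 / |((mw w : ℤ) : ℝ)|) * ∑ w ∈ Wg, 1 / |((fv (vf w) : ℤ) : ℝ)| ≤
        (c4 * c5) * ((N : ℝ) ^ (3 / 2 + ε / 2)) ^ 2 := by
      calc _ ≤ (c4 * (N : ℝ) ^ (1 + ε / 2)) * (c5 * (N : ℝ) ^ (2 + ε / 2)) :=
            mul_le_mul s1 s2 (Finset.sum_nonneg fun w _ => by positivity) (by positivity)
        _ = (c4 * c5) * ((N : ℝ) ^ (1 + ε / 2) * (N : ℝ) ^ (2 + ε / 2)) := by ring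
        _ = _ := by
            congr 1
            rw [← Real.rpow_add hNp, ← Real.rpow_natCast, ← Real.rpow_mul hN0]
            congr 1; push_cast; ring
    refine (Real.sqrt_le_sqrt h1).trans (le_of_eq ?_)
    rw [Real.sqrt_mul (by positivity), Real.sqrt_sq (by positivity)]
  have hsqE : √(e * (N : ℝ) ^ 4) = √e * (N : ℝ) ^ 2 := by
    rw [Real.sqrt_mul he]
    congr 1
    rw [show (N : ℝ) ^ 4 = ((N : ℝ) ^ 2) ^ 2 by ring, Real.sqrt_sq (by positivity)]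
  have hG : ∑ w ∈ Wg, ((X.filter (fun x => wx x = w)).card : ℝ) ≤
      27 * c1 * (N : ℝ) ^ (15 / 2 + ε) + c1 * √(c4 * c5) * (√e * (N : ℝ) ^ (8 + ε)) := by
    refine (Finset.sum_le_sum hg).trans ?_
    have e1 : ∑ w ∈ Wg, c1 * (N : ℝ) ^ (9 / 2 + ε / 2) * (1 + √(e * (N : ℝ) ^ 4) *
        (√(1 / |((mw w : ℤ) : ℝ)|) * √(1 / |((fv (vf w) : ℤ) : ℝ)|))) =
        c1 * (N : ℝ) ^ (9 / 2 + ε / 2) * ((Wg.card : ℝ) + √(e * (N : ℝ) ^ 4) *
          ∑ w ∈ Wg, √(1 / |((mw w : ℤ) : ℝ)|) * √(1 / |((fv (vf w) : ℤ) : ℝ)|)) := by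
      rw [← Finset.mul_sum, Finset.sum_add_distrib, ← Finset.mul_sum]
      simp
    rw [e1, hsqE]
    have p1 : (N : ℝ) ^ (9 / 2 + ε / 2) * (N : ℝ) ^ 3 ≤ (N : ℝ) ^ (15 / 2 + ε) := by
      rw [← Real.rpow_natCast (N : ℝ) 3, ← Real.rpow_add hNp]
      apply Real.rpow_le_rpow_of_exponent_le hN1
      push_cast; linarith
    have p2 : (N : ℝ) ^ (9 / 2 + ε / 2) * ((N : ℝ) ^ 2 * (N : ℝ) ^ (3 / 2 + ε / 2)) =
        (N : ℝ) ^ (8 + ε) := by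
      rw [← Real.rpow_natCast (N : ℝ) 2, ← Real.rpow_add hNp, ← Real.rpow_add hNp]
      congr 1; push_cast; ring
    calc c1 * (N : ℝ) ^ (9 / 2 + ε / 2) * ((Wg.card : ℝ) + √e * (N : ℝ) ^ 2 *
          ∑ w ∈ Wg, √(1 / |((mw w : ℤ) : ℝ)|) * √(1 / |((fv (vf w) : ℤ) : ℝ)|))
        ≤ c1 * (N : ℝ) ^ (9 / 2 + ε / 2) * (27 * (N : ℝ) ^ 3 + √e * (N : ℝ) ^ 2 *
          (√(c4 * c5) * (N : ℝ) ^ (3 / 2 + ε / 2))) := by
          apply mul_le_mul_of_nonneg_left _ (by positivity)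
          exact add_le_add hWc (mul_le_mul_of_nonneg_left s3 (by positivity))
      _ = 27 * c1 * ((N : ℝ) ^ (9 / 2 + ε / 2) * (N : ℝ) ^ 3) + c1 * √(c4 * c5) * (√e *
          ((N : ℝ) ^ (9 / 2 + ε / 2) * ((N : ℝ) ^ 2 * (N : ℝ) ^ (3 / 2 + ε / 2)))) := by ring
      _ ≤ _ := by
          rw [p2]
          exact add_le_add (mul_le_mul_of_nonneg_left p1 (by positivity)) le_rfl
  have hB : ∑ w ∈ W.filter Bad, ((X.filter (fun x => wx x = w)).card : ℝ) ≤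
      c2 * (27 * c3) * (N : ℝ) ^ (15 / 2 + ε) := by
    calc _ ≤ ∑ _w ∈ W.filter Bad, (27 * c3 * (N : ℝ) ^ (5 + ε / 2)) := Finset.sum_le_sum hb
      _ = (W.filter Bad).card * (27 * c3 * (N : ℝ) ^ (5 + ε / 2)) := by
          rw [Finset.sum_const, nsmul_eq_mul]
      _ ≤ c2 * (N : ℝ) ^ (5 / 2 + ε / 2) * (27 * c3 * (N : ℝ) ^ (5 + ε / 2)) :=
          mul_le_mul_of_nonneg_right hbc (by positivity)
      _ = c2 * (27 * c3) * ((N : ℝ) ^ (5 / 2 + ε / 2) * (N : ℝ) ^ (5 + ε / 2)) := by ring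
      _ = _ := by
          congr 1
          rw [← Real.rpow_add hNp]
          congr 1; ring
  have q1 : (N : ℝ) ^ (15 / 2 + ε) = (N : ℝ) ^ ε * (N : ℝ) ^ (15 / 2 : ℝ) := by
    rw [← Real.rpow_add hNp]; congr 1; ring
  have q2 : (N : ℝ) ^ (8 + ε) = (N : ℝ) ^ ε * (N : ℝ) ^ 8 := by
    rw [← Real.rpow_natCast (N : ℝ) 8, ← Real.rpow_add hNp]; congr 1; push_cast; ring
  rw [hsum, hsplit]
  rw [q1] at hG hB
  rw [q2] at hG
  set A := (N : ℝ) ^ ε * (N : ℝ) ^ (15 / 2 : ℝ) with hA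
  set B := √e * ((N : ℝ) ^ ε * (N : ℝ) ^ 8) with hBd
  have hA0 : 0 ≤ A := by positivity
  have hB0 : 0 ≤ B := by positivity
  have e9 : (N : ℝ) ^ ε * ((N : ℝ) ^ (15 / 2 : ℝ) + √e * (N : ℝ) ^ 8) = A + B := by
    rw [hA, hBd]; ring
  rw [mul_assoc, e9]
  have hc45 : 0 ≤ c1 * √(c4 * c5) := by positivity
  have x1 : 0 ≤ c1 * √(c4 * c5) * A := by positivity
  have x2 : 0 ≤ (27 * c1 + c2 * (27 * c3)) * B := by positivity
  calc _ ≤ c2 * (27 * c3) * A + (27 * c1 * A + c1 * √(c4 * c5) * B) := add_le_add hB hG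
    _ ≤ _ := by nlinarith

end Pool.Agent.PP5X
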