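import Pool.Agent.PP5X.FzA

/-!
# PP5X/FzB: the isotropic `x` of a box with `f D(x)` a square, `f ≠ 0`
-/

set_option autoImplicit false

namespace Pool.Agent.PP5X

open Finset Pool.Agent.PP5L

theorem bad_f {ε : ℝ} (hε : 0 < ε) : ∃ C : ℝ, 0 < C ∧ ∀ (f : ℤ) (N : ℕ)
    (vf : ℤ × (ℤ × ℤ) → Fin 3 → ℤ) (S : Finset (ℤ × (ℤ × ℤ))), 1 ≤ N → f ≠ 0 →
    (∀ w ∈ S, |w.1| ≤ N ∧ |w.2.1| ≤ N ∧ |w.2.2| ≤ N ∧ vf w ≠ 0 ∧
      w.2.1 * vf w 0 - w.2.2 * vf w 1 - w.1 * vf w 2 = 0 ∧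
      (∀ i, |vf w i| ≤ (Nat.sqrt (3 * N) : ℕ)) ∧
      (w.2.1 * w.2.2 = 0 ∨ mw w = 0 ∨ fv (vf w) = 0 ∨ IsSquare (f * (fv (vf w) * mw w)))) →
    (S.card : ℝ) ≤ C * |(f : ℝ)| * (N : ℝ) ^ (5 / 2 + ε) := by
  classical
  obtain ⟨c1, hc1, hbad⟩ := bad_count hε
  obtain ⟨c2, hc2, hsq⟩ := sqw_count hε
  refine ⟨c1 + c2 * 4, by positivity, ?_⟩
  intro f N vf S hN hf hS
  have hN1 : (1 : ℝ) ≤ N := by exact_mod_cast hN
  have hN0 : (0 : ℝ) < N := by linarith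
  have hf1 : (1 : ℝ) ≤ |(f : ℝ)| := by exact_mod_cast Int.one_le_abs hf
  set P : ℤ × (ℤ × ℤ) → Prop := fun w => w.2.1 * w.2.2 = 0 ∨ mw w = 0 ∨ fv (vf w) = 0 with hP
  have h1 := hbad N vf (S.filter P) hN (by
    intro w hw
    obtain ⟨hwS, hwP⟩ := Finset.mem_filter.1 hw
    obtain ⟨a1, a2, a3, a4, a5, a6, -⟩ := hS w hwS
    refine ⟨a1, a2, a3, a4, a5, a6, ?_⟩
    rcases hwP with h | h | h
    · exact Or.inl h
    · exact Or.inr (Or.inl h)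
    · exact Or.inr (Or.inr (Or.inl h)))
  set V : ℕ := Nat.sqrt (3 * N) with hV
  have hVsq : V * V ≤ 3 * N := Nat.sqrt_le (3 * N)
  have h2 := hsq N (f.natAbs * (15 * N)) (fun w => f * fv (vf w)) (S.filter (fun w => ¬ P w)) hN (by
    intro w hw
    obtain ⟨hwS, hwP⟩ := Finset.mem_filter.1 hw
    simp only [hP, not_or] at hwP
    obtain ⟨n1, n2, n3⟩ := hwP
    obtain ⟨a1, a2, a3, -, -, a6, a7⟩ := hS w hwS
    have a8 : IsSquare (f * (fv (vf w) * mw w)) := by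
      rcases a7 with h | h | h | h
      · exact absurd h n1
      · exact absurd h n2
      · exact absurd h n3
      · exact h
    refine ⟨a1, a2, a3, n1, mul_ne_zero hf n3, ?_, n2, ?_⟩
    · have hVV : ∀ i j, |vf w i * vf w j| ≤ 3 * (N : ℤ) := by
        intro i j
        rw [abs_mul]
        have := mul_le_mul (a6 i) (a6 j) (abs_nonneg _) (by positivity : (0 : ℤ) ≤ (V : ℤ))
        have h2 : (V : ℤ) * V ≤ 3 * N := by exact_mod_cast hVsq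
        omega
      have e1 := hVV 0 1
      have e2 := hVV 2 2
      have e3 := abs_add_le (4 * (vf w 0 * vf w 1)) (vf w 2 * vf w 2)
      rw [abs_mul 4, abs_of_pos (by norm_num : (0 : ℤ) < 4)] at e3
      have e4 : fv (vf w) = 4 * (vf w 0 * vf w 1) + vf w 2 * vf w 2 := by simp only [fv]; ring
      have e5 : |fv (vf w)| ≤ 15 * (N : ℤ) := by rw [e4]; omega
      rw [abs_mul, Int.abs_eq_natAbs f]
      push_cast
      exact mul_le_mul_of_nonneg_left e5 (by positivity)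
    · have e : f * fv (vf w) * (4 * w.2.1 * w.2.2 + w.1 ^ 2) = f * (fv (vf w) * mw w) := by
        simp only [mw]; ring
      show IsSquare (f * fv (vf w) * (4 * w.2.1 * w.2.2 + w.1 ^ 2))
      rw [e]; exact a8)
  have h3 : √((f.natAbs * (15 * N) : ℕ) : ℝ) ≤ 4 * |(f : ℝ)| * (N : ℝ) ^ (1 / 2 : ℝ) := by
    rw [← Real.sqrt_eq_rpow]
    have e1 : ((f.natAbs * (15 * N) : ℕ) : ℝ) = |(f : ℝ)| * 15 * N := by
      push_cast
      rw [Nat.cast_natAbs, Int.cast_abs]; ring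
    rw [e1, Real.sqrt_mul (by positivity)]
    apply mul_le_mul_of_nonneg_right _ (Real.sqrt_nonneg _)
    rw [Real.sqrt_le_left (by positivity)]
    nlinarith
  have h4 : ((S.filter (fun w => ¬ P w)).card : ℝ) ≤ c2 * 4 * |(f : ℝ)| * (N : ℝ) ^ (5 / 2 + ε) := by
    refine h2.trans ?_
    calc c2 * (N : ℝ) ^ (2 + ε) * √((f.natAbs * (15 * N) : ℕ) : ℝ)
        ≤ c2 * (N : ℝ) ^ (2 + ε) * (4 * |(f : ℝ)| * (N : ℝ) ^ (1 / 2 : ℝ)) :=
          mul_le_mul_of_nonneg_left h3 (by positivity)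
      _ = c2 * 4 * |(f : ℝ)| * ((N : ℝ) ^ (2 + ε) * (N : ℝ) ^ (1 / 2 : ℝ)) := by ring
      _ = _ := by
          congr 1
          rw [← Real.rpow_add hN0]
          congr 1; ring
  have h5 : (S.card : ℝ) = ((S.filter P).card : ℝ) + ((S.filter (fun w => ¬ P w)).card : ℝ) := by
    have := Finset.card_filter_add_card_filter_not (s := S) P
    exact_mod_cast this.symm
  have h6 : c1 * (N : ℝ) ^ (5 / 2 + ε) ≤ c1 * |(f : ℝ)| * (N : ℝ) ^ (5 / 2 + ε) := by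
    apply mul_le_mul_of_nonneg_right _ (by positivity)
    nlinarith
  rw [h5]
  calc _ ≤ c1 * |(f : ℝ)| * (N : ℝ) ^ (5 / 2 + ε) + c2 * 4 * |(f : ℝ)| * (N : ℝ) ^ (5 / 2 + ε) :=
        add_le_add (h1.trans h6) h4
    _ = _ := by ring

/-- (a3) for `f D(x)` a square -/
theorem fz_count {ε : ℝ} (hε : 0 < ε) : ∃ C : ℝ, 0 < C ∧ ∀ (f : ℤ) (N : ℕ)
    (X : Finset (Fin 10 → ℤ)), 1 ≤ N → f ≠ 0 →
    (∀ x ∈ X, (∀ j, |x j| ≤ N) ∧ FF x = 0 ∧ IsSquare (f * (SS x).det)) →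
    (X.card : ℝ) ≤ C * |(f : ℝ)| ^ (1 + ε) * (N : ℝ) ^ (15 / 2 + ε) := by
  classical
  obtain ⟨c1, hc1, hgood⟩ := fz_w hε
  obtain ⟨c2, hc2, hbad⟩ := bad_f (ε := ε / 2) (by positivity)
  obtain ⟨c3, hc3, hfix⟩ := fix_w (ε := ε / 2) (by positivity)
  refine ⟨27 * c1 + c2 * (27 * c3), by positivity, ?_⟩
  intro f N X hN hf hX
  have hN1 : (1 : ℝ) ≤ N := by exact_mod_cast hN
  have hN0 : (0 : ℝ) ≤ N := by linarith
  have hf1 : (1 : ℝ) ≤ |(f : ℝ)| := by exact_mod_cast Int.one_le_abs hf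
  have hf0 : (0 : ℝ) < |(f : ℝ)| := by linarith
  have hfe1 : |(f : ℝ)| ^ ε ≤ |(f : ℝ)| ^ (1 + ε) :=
    Real.rpow_le_rpow_of_exponent_le hf1 (by linarith)
  have hfe2 : |(f : ℝ)| ≤ |(f : ℝ)| ^ (1 + ε) := by
    calc |(f : ℝ)| = |(f : ℝ)| ^ (1 : ℝ) := (Real.rpow_one _).symm
      _ ≤ _ := Real.rpow_le_rpow_of_exponent_le hf1 (by linarith)
  set W := X.image wx with hW
  have hWb : ∀ w ∈ W, |w.1| ≤ N ∧ |w.2.1| ≤ N ∧ |w.2.2| ≤ N := by
    intro w hw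
    rw [hW, Finset.mem_image] at hw
    obtain ⟨x, hx, rfl⟩ := hw
    have := (hX x hx).1
    exact ⟨this 6, this 0, this 1⟩
  choose! vf hv0 hvo hvV using fun w (hw : w ∈ W) =>
    siegel3 N hN w (hWb w hw).1 (hWb w hw).2.1 (hWb w hw).2.2
  set Bad : ℤ × (ℤ × ℤ) → Prop := fun w => w.2.1 * w.2.2 = 0 ∨ mw w = 0 ∨ fv (vf w) = 0 ∨
    IsSquare (f * (fv (vf w) * mw w)) with hBad
  have hsum : (X.card : ℝ) = ∑ w ∈ W, ((X.filter (fun x => wx x = w)).card : ℝ) := by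
    have := Finset.card_eq_sum_card_image wx X
    exact_mod_cast this
  have hsplit : ∑ w ∈ W, ((X.filter (fun x => wx x = w)).card : ℝ) =
      ∑ w ∈ W.filter Bad, ((X.filter (fun x => wx x = w)).card : ℝ) +
      ∑ w ∈ W.filter (fun w => ¬ Bad w), ((X.filter (fun x => wx x = w)).card : ℝ) :=
    (Finset.sum_filter_add_sum_filter_not W _ _).symm
  have hWc : ((W.filter (fun w => ¬ Bad w)).card : ℝ) ≤ 27 * (N : ℝ) ^ 3 := by
    have h1 : W.filter (fun w => ¬ Bad w) ⊆ bxN N ×ˢ (bxN N ×ˢ bxN N) := by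
      intro w hw
      have := hWb w (Finset.mem_filter.1 hw).1
      exact Finset.mem_product.2 ⟨mem_bxN.2 this.1, Finset.mem_product.2
        ⟨mem_bxN.2 this.2.1, mem_bxN.2 this.2.2⟩⟩
    have h2 := Finset.card_le_card h1
    rw [Finset.card_product, Finset.card_product, card_bxN] at h2
    have h3 : ((W.filter (fun w => ¬ Bad w)).card : ℝ) ≤ (2 * N + 1) * ((2 * N + 1) * (2 * N + 1)) := by
      exact_mod_cast h2
    have h4 : (2 * (N : ℝ) + 1) ≤ 3 * N := by linarith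
    calc _ ≤ (2 * (N : ℝ) + 1) * ((2 * N + 1) * (2 * N + 1)) := h3
      _ ≤ (3 * N) * ((3 * N) * (3 * N)) := by gcongr
      _ = _ := by ring
  have hg : ∀ w ∈ W.filter (fun w => ¬ Bad w), ((X.filter (fun x => wx x = w)).card : ℝ) ≤
      c1 * |(f : ℝ)| ^ (1 + ε) * (N : ℝ) ^ (9 / 2 + ε) := by
    intro w hw
    obtain ⟨hwW, hnb⟩ := Finset.mem_filter.1 hw
    simp only [hBad, not_or] at hnb
    obtain ⟨n1, n2, n3, n4⟩ := hnb
    refine (hgood f N _ w (vf w) hN (hv0 w hwW) hf (hvo w hwW) (hvV w hwW) (mul_ne_zero n3 n2) n4 ?_).trans ?_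
    · intro x hx
      obtain ⟨hx1, hx2⟩ := Finset.mem_filter.1 hx
      exact ⟨(hX x hx1).1, (hX x hx1).2.1, hx2, (hX x hx1).2.2⟩
    · apply mul_le_mul_of_nonneg_right _ (by positivity)
      exact mul_le_mul_of_nonneg_left hfe1 hc1.le
  have hb : ∀ w ∈ W.filter Bad, ((X.filter (fun x => wx x = w)).card : ℝ) ≤
      27 * c3 * (N : ℝ) ^ (5 + ε / 2) := by
    intro w hw
    have h1 := hfix N (X.filter (fun x => wx x = w)) w (bxN N ×ˢ (bxN N ×ˢ bxN N)) hN (by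
      intro x hx
      obtain ⟨hx1, hx2⟩ := Finset.mem_filter.1 hx
      have hb := (hX x hx1).1
      refine ⟨fun j => ?_, hb 0, hb 1, hb 6, hb 4, hb 5, hb 7, hb 8, (hX x hx1).2.1, hx2, ?_⟩
      · have := hb j; omega
      · exact Finset.mem_product.2 ⟨mem_bxN.2 (hb 2), Finset.mem_product.2
          ⟨mem_bxN.2 (hb 3), mem_bxN.2 (hb 9)⟩⟩)
    rw [Finset.card_product, Finset.card_product, card_bxN] at h1
    have h2 : (((2 * N + 1) * ((2 * N + 1) * (2 * N + 1)) : ℕ) : ℝ) ≤ 27 * (N : ℝ) ^ 3 := by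
      push_cast
      have h4 : (2 * (N : ℝ) + 1) ≤ 3 * N := by linarith
      calc (2 * (N : ℝ) + 1) * ((2 * N + 1) * (2 * N + 1)) ≤ (3 * N) * ((3 * N) * (3 * N)) := by gcongr
        _ = _ := by ring
    calc _ ≤ (((2 * N + 1) * ((2 * N + 1) * (2 * N + 1)) : ℕ) : ℝ) * (c3 * (N : ℝ) ^ (2 + ε / 2)) := h1
      _ ≤ 27 * (N : ℝ) ^ 3 * (c3 * (N : ℝ) ^ (2 + ε / 2)) :=
          mul_le_mul_of_nonneg_right h2 (by positivity)
      _ = 27 * c3 * ((N : ℝ) ^ 3 * (N : ℝ) ^ (2 + ε / 2)) := by ring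
      _ = _ := by
          congr 1
          rw [← Real.rpow_natCast (N : ℝ) 3, ← Real.rpow_add (by linarith)]
          congr 1; push_cast; ring
  have hbc := hbad f N vf (W.filter Bad) hN hf (by
    intro w hw
    obtain ⟨hwW, hbw⟩ := Finset.mem_filter.1 hw
    obtain ⟨a1, a2, a3⟩ := hWb w hwW
    exact ⟨a1, a2, a3, hv0 w hwW, hvo w hwW, hvV w hwW, hbw⟩)
  have hG : ∑ w ∈ W.filter (fun w => ¬ Bad w), ((X.filter (fun x => wx x = w)).card : ℝ) ≤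
      27 * c1 * |(f : ℝ)| ^ (1 + ε) * (N : ℝ) ^ (15 / 2 + ε) := by
    calc _ ≤ ∑ _w ∈ W.filter (fun w => ¬ Bad w), (c1 * |(f : ℝ)| ^ (1 + ε) * (N : ℝ) ^ (9 / 2 + ε)) :=
          Finset.sum_le_sum hg
      _ = (W.filter (fun w => ¬ Bad w)).card * (c1 * |(f : ℝ)| ^ (1 + ε) * (N : ℝ) ^ (9 / 2 + ε)) := by
          rw [Finset.sum_const, nsmul_eq_mul]
      _ ≤ 27 * (N : ℝ) ^ 3 * (c1 * |(f : ℝ)| ^ (1 + ε) * (N : ℝ) ^ (9 / 2 + ε)) :=
          mul_le_mul_of_nonneg_right hWc (by positivity)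
      _ = 27 * c1 * |(f : ℝ)| ^ (1 + ε) * ((N : ℝ) ^ 3 * (N : ℝ) ^ (9 / 2 + ε)) := by ring
      _ = _ := by
          congr 1
          rw [← Real.rpow_natCast (N : ℝ) 3, ← Real.rpow_add (by linarith)]
          congr 1; push_cast; ring
  have hB : ∑ w ∈ W.filter Bad, ((X.filter (fun x => wx x = w)).card : ℝ) ≤
      c2 * (27 * c3) * |(f : ℝ)| ^ (1 + ε) * (N : ℝ) ^ (15 / 2 + ε) := by
    calc _ ≤ ∑ _w ∈ W.filter Bad, (27 * c3 * (N : ℝ) ^ (5 + ε / 2)) := Finset.sum_le_sum hb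
      _ = (W.filter Bad).card * (27 * c3 * (N : ℝ) ^ (5 + ε / 2)) := by
          rw [Finset.sum_const, nsmul_eq_mul]
      _ ≤ c2 * |(f : ℝ)| * (N : ℝ) ^ (5 / 2 + ε / 2) * (27 * c3 * (N : ℝ) ^ (5 + ε / 2)) :=
          mul_le_mul_of_nonneg_right hbc (by positivity)
      _ = c2 * (27 * c3) * |(f : ℝ)| * ((N : ℝ) ^ (5 / 2 + ε / 2) * (N : ℝ) ^ (5 + ε / 2)) := by ring
      _ ≤ c2 * (27 * c3) * |(f : ℝ)| ^ (1 + ε) *
          ((N : ℝ) ^ (5 / 2 + ε / 2) * (N : ℝ) ^ (5 + ε / 2)) := by gcongr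
      _ = _ := by
          congr 1
          rw [← Real.rpow_add (by linarith)]
          congr 1; ring
  rw [hsum, hsplit]
  calc _ ≤ c2 * (27 * c3) * |(f : ℝ)| ^ (1 + ε) * (N : ℝ) ^ (15 / 2 + ε) +
        27 * c1 * |(f : ℝ)| ^ (1 + ε) * (N : ℝ) ^ (15 / 2 + ε) := add_le_add hB hG
    _ = _ := by ring

end Pool.Agent.PP5X
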