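import Pool.Agent.PP5.SGood
import Pool.Agent.PP5.SMain

/-!
# PP5X/DsA: small values of a quadratic polynomial; the lines of a fixed `w`
-/

set_option autoImplicit false

namespace Pool.Agent.PP5X

open Finset Pool.Agent.PP5L

theorem diam_card' {S : Finset ℤ} {d : ℝ} (hd : 0 ≤ d)
    (h : ∀ s ∈ S, ∀ t ∈ S, |(s : ℝ) - t| ≤ d) : (S.card : ℝ) ≤ d + 1 := by
  rcases S.eq_empty_or_nonempty with h0 | h0
  · rw [h0]; simp; linarith
  · have h1 : S ⊆ Finset.Icc (S.min' h0) (S.max' h0) := fun s hs =>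
      Finset.mem_Icc.mpr ⟨S.min'_le s hs, S.le_max' s hs⟩
    have h2 := Finset.card_le_card h1
    rw [Int.card_Icc] at h2
    have h3 := h _ (S.max'_mem h0) _ (S.min'_mem h0)
    have h4 : S.min' h0 ≤ S.max' h0 := S.min'_le _ (S.max'_mem h0)
    have h5 : ((S.max' h0 + 1 - S.min' h0).toNat : ℝ) = (S.max' h0 : ℝ) + 1 - S.min' h0 := by
      have h6 : ((S.max' h0 + 1 - S.min' h0).toNat : ℤ) = S.max' h0 + 1 - S.min' h0 :=
        Int.toNat_of_nonneg (by omega)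
      rw [← Int.cast_natCast (R := ℝ), h6]; push_cast; ring
    have h8 : (S.card : ℝ) ≤ ((S.max' h0 + 1 - S.min' h0).toNat : ℝ) := by exact_mod_cast h2
    rw [h5] at h8
    have := le_abs_self ((S.max' h0 : ℝ) - S.min' h0)
    linarith

/-- half of the values: `z = 2 a t + b` of one sign -/
theorem quad_half {a b c E : ℝ} {S : Finset ℤ} (ha : a ≠ 0) (hE : 0 ≤ E) (σ : ℝ)
    (hσ : σ = 1 ∨ σ = -1)
    (hS : ∀ t ∈ S, |a * (t : ℝ) ^ 2 + b * t + c| ≤ E ∧ 0 ≤ σ * (2 * a * t + b)) :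
    (S.card : ℝ) ≤ √(2 * E / |a|) + 1 := by
  have ha0 : 0 < |a| := abs_pos.2 ha
  apply diam_card' (Real.sqrt_nonneg _)
  -- one inequality
  have key : ∀ s ∈ S, ∀ t ∈ S, σ * (2 * a * t + b) ≤ σ * (2 * a * s + b) →
      |(s : ℝ) - t| ≤ √(2 * E / |a|) := by
    intro s hs t ht h
    obtain ⟨s1, s2⟩ := hS s hs
    obtain ⟨t1, t2⟩ := hS t ht
    have hσ2 : σ ^ 2 = 1 := by rcases hσ with h | h <;> rw [h] <;> norm_num
    set z := σ * (2 * a * s + b) with hz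
    set w := σ * (2 * a * t + b) with hw
    have e1 : z ^ 2 = 4 * a * (a * (s : ℝ) ^ 2 + b * s + c) + (b ^ 2 - 4 * a * c) := by
      rw [hz, mul_pow, hσ2]; ring
    have e2 : w ^ 2 = 4 * a * (a * (t : ℝ) ^ 2 + b * t + c) + (b ^ 2 - 4 * a * c) := by
      rw [hw, mul_pow, hσ2]; ring
    have e3 : (z - w) ^ 2 ≤ 8 * |a| * E := by
      have h1 : (z - w) ^ 2 ≤ z ^ 2 - w ^ 2 := by nlinarith
      have h2 : z ^ 2 - w ^ 2 = 4 * a * ((a * (s : ℝ) ^ 2 + b * s + c) -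
          (a * (t : ℝ) ^ 2 + b * t + c)) := by rw [e1, e2]; ring
      have h3 : |(a * (s : ℝ) ^ 2 + b * s + c) - (a * (t : ℝ) ^ 2 + b * t + c)| ≤ 2 * E := by
        refine (abs_sub _ _).trans ?_
        linarith
      have h4 : 4 * a * ((a * (s : ℝ) ^ 2 + b * s + c) - (a * (t : ℝ) ^ 2 + b * t + c)) ≤
          4 * |a| * (2 * E) := by
        refine (le_abs_self _).trans ?_
        rw [abs_mul, abs_mul, abs_of_pos (by norm_num : (0 : ℝ) < 4)]
        exact mul_le_mul_of_nonneg_left h3 (by positivity)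
      linarith
    have e4 : (z - w) ^ 2 = 4 * |a| ^ 2 * ((s : ℝ) - t) ^ 2 := by
      have : z - w = σ * (2 * a * (s - t)) := by rw [hz, hw]; ring
      rw [this, mul_pow, hσ2, sq_abs]; ring
    apply Real.abs_le_sqrt
    rw [le_div_iff₀ ha0]
    rw [e4] at e3
    have e5 : 4 * |a| * (((s : ℝ) - t) ^ 2 * |a|) ≤ 4 * |a| * (2 * E) := by nlinarith
    exact le_of_mul_le_mul_left e5 (by positivity)
  intro s hs t ht
  rcases le_total (σ * (2 * a * t + b)) (σ * (2 * a * s + b)) with h | h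
  · exact key s hs t ht h
  · rw [abs_sub_comm]; exact key t ht s hs h

theorem quad_small {a b c : ℤ} {E : ℝ} {S : Finset ℤ} (ha : a ≠ 0) (hE : 0 ≤ E)
    (hS : ∀ t ∈ S, |((a * t ^ 2 + b * t + c : ℤ) : ℝ)| ≤ E) :
    (S.card : ℝ) ≤ 2 * (√(2 * E / |(a : ℝ)|) + 1) := by
  classical
  have ha' : (a : ℝ) ≠ 0 := by exact_mod_cast ha
  have h1 := quad_half (S := S.filter (fun t : ℤ => (0 : ℝ) ≤ 2 * (a : ℝ) * t + b)) (c := c) ha' hE 1
    (Or.inl rfl) (by
      intro t ht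
      rw [Finset.mem_filter] at ht
      have := hS t ht.1
      push_cast at this
      exact ⟨this, by rw [one_mul]; exact ht.2⟩)
  have h2 := quad_half (S := S.filter (fun t : ℤ => ¬ (0 : ℝ) ≤ 2 * (a : ℝ) * t + b)) (c := c) ha' hE (-1)
    (Or.inr rfl) (by
      intro t ht
      rw [Finset.mem_filter] at ht
      have := hS t ht.1
      push_cast at this
      exact ⟨this, by have := ht.2; push Not at this; linarith⟩)
  have h3 := Finset.card_filter_add_card_filter_not (s := S) (fun t : ℤ => (0 : ℝ) ≤ 2 * (a : ℝ) * t + b)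
  have h4 : (S.card : ℝ) = ((S.filter (fun t : ℤ => (0 : ℝ) ≤ 2 * (a : ℝ) * t + b)).card : ℝ) +
      ((S.filter (fun t : ℤ => ¬ (0 : ℝ) ≤ 2 * (a : ℝ) * t + b)).card : ℝ) := by
    exact_mod_cast h3.symm
  rw [h4]
  linarith

/-- the points with given `w`, in terms of the number of points on the lines in the direction `v` -/
theorem lines_w {ε : ℝ} (hε : 0 < ε) : ∃ C : ℝ, 0 < C ∧ ∀ (N : ℕ) (X : Finset (Fin 10 → ℤ))
    (w : ℤ × (ℤ × ℤ)) (v : Fin 3 → ℤ) (M : ℝ), 1 ≤ N → v ≠ 0 → 0 ≤ M →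
    w.2.1 * v 0 - w.2.2 * v 1 - w.1 * v 2 = 0 → (∀ i, |v i| ≤ (Nat.sqrt (3 * N) : ℕ)) →
    (∀ x ∈ X, (∀ j, |x j| ≤ N) ∧ FF x = 0 ∧ wx x = w) →
    (∀ y : Fin 10 → ℤ, wx y = w → ∀ S : Finset ℤ, (∀ t ∈ S, sh y v t ∈ X) → (S.card : ℝ) ≤ M) →
    (X.card : ℝ) ≤ C * (N : ℝ) ^ (9 / 2 + ε) * M := by
  obtain ⟨c1, hc1, hfix⟩ := fix_w (ε := ε) hε
  refine ⟨162 * c1, by positivity, ?_⟩
  intro N X w v M hN hv0 hM hwv hvV hX hline
  have hN1 : (1 : ℝ) ≤ N := by exact_mod_cast hN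
  have hN0 : (0 : ℝ) ≤ N := by linarith
  have hNZ : (1 : ℤ) ≤ N := by exact_mod_cast hN
  set V : ℕ := Nat.sqrt (3 * N) with hV
  have hVsq : V * V ≤ 3 * N := Nat.sqrt_le (3 * N)
  have hVN : V ≤ 2 * N := by nlinarith
  obtain ⟨k, hk⟩ := Finite.exists_max (fun i => |v i|)
  have hvk : v k ≠ 0 := by
    intro h0
    apply hv0
    funext i
    have := hk i
    rw [h0, abs_zero] at this
    simpa using this
  set τ : (Fin 10 → ℤ) → ℤ := fun x => x (cidx k) / v k with hτ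
  set lam : (Fin 10 → ℤ) → (Fin 10 → ℤ) := fun x => sh x v (-(τ x)) with hlam
  have hback : ∀ x, sh (lam x) v (τ x) = x := by
    intro x; rw [hlam]; simp only; rw [sh_sh]; rw [neg_add_cancel, sh_zero]
  have hτb : ∀ x ∈ X, |τ x| * |v k| ≤ N + V := by
    intro x hx
    have h1 := Int.emod_add_mul_ediv (x (cidx k)) (v k)
    have h2 : 0 ≤ x (cidx k) % v k := Int.emod_nonneg _ hvk
    have h3 : x (cidx k) % v k < |v k| := Int.emod_lt_abs _ hvk
    have h4 := (hX x hx).1 (cidx k)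
    have h5 := hvV k
    have h6 : v k * τ x = x (cidx k) - x (cidx k) % v k := by simp only [hτ]; linarith
    rw [← abs_mul, mul_comm, h6]
    have := abs_sub (x (cidx k)) (x (cidx k) % v k)
    rw [abs_of_nonneg h2] at this
    omega
  have hlb : ∀ x ∈ X, ∀ i, |lam x (cidx i)| ≤ 4 * N := by
    intro x hx i
    simp only [hlam]
    rw [sh_cidx]
    have h1 := (hX x hx).1 (cidx i)
    have h2 : |-(τ x) * v i| ≤ |τ x| * |v k| := by
      rw [abs_mul, abs_neg]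
      exact mul_le_mul_of_nonneg_left (hk i) (abs_nonneg _)
    have h3 := hτb x hx
    have h4 := abs_add_le (x (cidx i)) (-(τ x) * v i)
    omega
  set Y := X.image lam with hY
  have hYp : ∀ y ∈ Y, (∀ j, |y j| ≤ 4 * N) ∧ |y 0| ≤ N ∧ |y 1| ≤ N ∧ |y 6| ≤ N ∧ |y 4| ≤ N ∧
      |y 5| ≤ N ∧ |y 7| ≤ N ∧ |y 8| ≤ N ∧ FF y = 0 ∧ wx y = w ∧ ux y ∈ boxA (4 * N) k |v k| := by
    intro y hy
    rw [hY, Finset.mem_image] at hy
    obtain ⟨x, hx, rfl⟩ := hy
    obtain ⟨hb, hF, hw⟩ := hX x hx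
    have hwv' : x 0 * v 0 - x 1 * v 1 - x 6 * v 2 = 0 := by
      rw [← hw] at hwv; simpa [wx] using hwv
    have b2 := hlb x hx 0
    have b3 := hlb x hx 1
    have b9 := hlb x hx 2
    refine ⟨?_, ?_, ?_, ?_, ?_, ?_, ?_, ?_, ?_, ?_, ?_⟩
    · intro j
      have e : ∀ z : ℤ, |z| ≤ (N : ℤ) → |z| ≤ 4 * (N : ℤ) := fun z hz => by omega
      fin_cases j
      · exact e _ (hb 0)
      · exact e _ (hb 1)
      · exact b2
      · exact b3
      · exact e _ (hb 4)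
      · exact e _ (hb 5)
      · exact e _ (hb 6)
      · exact e _ (hb 7)
      · exact e _ (hb 8)
      · exact b9
    · exact hb 0
    · exact hb 1
    · exact hb 6
    · exact hb 4
    · exact hb 5
    · exact hb 7
    · exact hb 8
    · simp only [hlam]; rw [FF_sh _ _ _ hwv', hF]
    · simp only [hlam]; rw [wx_sh, hw]
    · apply mem_boxA
      · intro i; push_cast; exact hlb x hx i
      · simp only [hlam]; rw [sh_cidx]
        have h1 := Int.emod_add_mul_ediv (x (cidx k)) (v k)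
        have h2 : 0 ≤ x (cidx k) % v k := Int.emod_nonneg _ hvk
        simp only [hτ]; linarith
      · simp only [hlam]; rw [sh_cidx]
        have h1 := Int.emod_add_mul_ediv (x (cidx k)) (v k)
        have h3 : x (cidx k) % v k < |v k| := Int.emod_lt_abs _ hvk
        simp only [hτ]; linarith
  have hYc := hfix N Y w (boxA (4 * N) k |v k|) hN hYp
  have hAc : ((boxA (4 * N) k |v k|).card : ℝ) ≤ 162 * (N : ℝ) ^ (5 / 2 : ℝ) := by
    rw [card_boxA]
    have h1 : (|v k|).toNat ≤ V := by have := hvV k; omega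
    have h2 : (V : ℝ) ≤ 2 * (N : ℝ) ^ (1 / 2 : ℝ) := by
      rw [← Real.sqrt_eq_rpow]
      have : (V : ℝ) ^ 2 ≤ (2 * √(N : ℝ)) ^ 2 := by
        rw [mul_pow, Real.sq_sqrt hN0]
        have : ((V * V : ℕ) : ℝ) ≤ ((3 * N : ℕ) : ℝ) := by exact_mod_cast hVsq
        push_cast at this
        nlinarith
      exact le_of_sq_le_sq this (by positivity)
    have h3 : (((|v k|).toNat : ℕ) : ℝ) ≤ 2 * (N : ℝ) ^ (1 / 2 : ℝ) :=
      le_trans (by exact_mod_cast h1) h2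
    have h4 : ((2 * (4 * N) + 1 : ℕ) : ℝ) ^ 2 ≤ 81 * (N : ℝ) ^ 2 := by
      push_cast; nlinarith
    have h5 : (N : ℝ) ^ (5 / 2 : ℝ) = (N : ℝ) ^ (1 / 2 : ℝ) * (N : ℝ) ^ 2 := by
      rw [← Real.rpow_natCast (N : ℝ) 2, ← Real.rpow_add (by linarith)]; norm_num
    push_cast at h4 ⊢
    rw [h5]
    calc (((|v k|).toNat : ℕ) : ℝ) * (2 * (4 * (N : ℝ)) + 1) ^ 2
        ≤ (2 * (N : ℝ) ^ (1 / 2 : ℝ)) * (81 * (N : ℝ) ^ 2) :=
          mul_le_mul h3 h4 (by positivity) (by positivity)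
      _ = _ := by ring
  have hfib : ∀ y ∈ Y, ((X.filter (fun x => lam x = y)).card : ℝ) ≤ M := by
    intro y hy
    have hyw := (hYp y hy).2.2.2.2.2.2.2.2.2.1
    have hinj : Set.InjOn τ (X.filter (fun x => lam x = y)) := by
      intro x hx x' hx' h
      have e1 := (Finset.mem_filter.1 hx).2
      have e2 := (Finset.mem_filter.1 hx').2
      rw [← hback x, ← hback x', e1, e2, h]
    rw [← Finset.card_image_of_injOn hinj]
    apply hline y hyw
    intro t ht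
    rw [Finset.mem_image] at ht
    obtain ⟨x, hx, rfl⟩ := ht
    obtain ⟨hxX, hxy⟩ := Finset.mem_filter.1 hx
    rw [← hxy, hback]
    exact hxX
  have hsum : (X.card : ℝ) = ∑ y ∈ Y, ((X.filter (fun x => lam x = y)).card : ℝ) := by
    have := Finset.card_eq_sum_card_image lam X
    exact_mod_cast this
  have hfin : (N : ℝ) ^ (5 / 2 : ℝ) * (N : ℝ) ^ (2 + ε) = (N : ℝ) ^ (9 / 2 + ε) := by
    rw [← Real.rpow_add (by linarith)]; congr 1; ring
  rw [hsum]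
  calc ∑ y ∈ Y, ((X.filter (fun x => lam x = y)).card : ℝ)
      ≤ ∑ _y ∈ Y, M := Finset.sum_le_sum hfib
    _ = Y.card * M := by rw [Finset.sum_const, nsmul_eq_mul]
    _ ≤ ((boxA (4 * N) k |v k|).card * (c1 * (N : ℝ) ^ (2 + ε))) * M :=
        mul_le_mul_of_nonneg_right hYc hM
    _ ≤ ((162 * (N : ℝ) ^ (5 / 2 : ℝ)) * (c1 * (N : ℝ) ^ (2 + ε))) * M := by
        apply mul_le_mul_of_nonneg_right _ hM
        exact mul_le_mul_of_nonneg_right hAc (by positivity)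
    _ = 162 * c1 * ((N : ℝ) ^ (5 / 2 : ℝ) * (N : ℝ) ^ (2 + ε)) * M := by ring
    _ = _ := by rw [hfin]

/-- the points with given `w` and small determinant -/
theorem small_w {ε : ℝ} (hε : 0 < ε) : ∃ C : ℝ, 0 < C ∧ ∀ (N : ℕ) (X : Finset (Fin 10 → ℤ))
    (w : ℤ × (ℤ × ℤ)) (v : Fin 3 → ℤ) (E : ℝ), 1 ≤ N → v ≠ 0 → 0 ≤ E →
    w.2.1 * v 0 - w.2.2 * v 1 - w.1 * v 2 = 0 → (∀ i, |v i| ≤ (Nat.sqrt (3 * N) : ℕ)) →
    fv v * mw w ≠ 0 →
    (∀ x ∈ X, (∀ j, |x j| ≤ N) ∧ FF x = 0 ∧ wx x = w ∧ |(((SS x).det : ℤ) : ℝ)| ≤ E) →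
    (X.card : ℝ) ≤ C * (N : ℝ) ^ (9 / 2 + ε) * (1 + √(E / |((fv v * mw w : ℤ) : ℝ)|)) := by
  obtain ⟨C, hC, h⟩ := lines_w hε
  refine ⟨C * 4, by positivity, ?_⟩
  intro N X w v E hN hv0 hE hwv hvV ha hX
  have h1 := h N X w v (2 * (√(2 * E / |((fv v * mw w : ℤ) : ℝ)|) + 1)) hN hv0 (by positivity) hwv
    hvV (fun x hx => ⟨(hX x hx).1, (hX x hx).2.1, (hX x hx).2.2.1⟩) (by
      intro y hy S hS
      have hl : lead y v = fv v * mw w := by
        rw [← hy]; simp [lead, fv, mw, wx]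
      have h2 := quad_small (a := lead y v) (b := linc y v) (c := (SS y).det) (E := E) (S := S)
        (by rw [hl]; exact ha) hE (by
          intro t ht
          rw [← det_sh]
          exact (hX _ (hS t ht)).2.2.2)
      rw [hl] at h2
      exact h2)
  refine h1.trans ?_
  have h3 : √(2 * E / |((fv v * mw w : ℤ) : ℝ)|) ≤ 2 * √(E / |((fv v * mw w : ℤ) : ℝ)|) := by
    rw [mul_div_assoc, Real.sqrt_mul (by norm_num)]
    apply mul_le_mul_of_nonneg_right _ (Real.sqrt_nonneg _)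
    rw [Real.sqrt_le_left (by norm_num)]; norm_num
  have h4 : 2 * (√(2 * E / |((fv v * mw w : ℤ) : ℝ)|) + 1) ≤
      4 * (1 + √(E / |((fv v * mw w : ℤ) : ℝ)|)) := by linarith
  calc C * (N : ℝ) ^ (9 / 2 + ε) * (2 * (√(2 * E / |((fv v * mw w : ℤ) : ℝ)|) + 1))
      ≤ C * (N : ℝ) ^ (9 / 2 + ε) * (4 * (1 + √(E / |((fv v * mw w : ℤ) : ℝ)|))) :=
        mul_le_mul_of_nonneg_left h4 (by positivity)
    _ = _ := by ring

end Pool.Agent.PP5X
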