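import Pool.Agent.PP5X.DsA

/-!
# PP5X/DsC: the sum of `1 / |mw w|`
-/

set_option autoImplicit false

namespace Pool.Agent.PP5X

open Finset Pool.Agent.PP5L

/-- nonzero integers of a box -/
noncomputable def bz (E : ℕ) : Finset ℤ := (bxN E).filter (fun s => s ≠ 0)

theorem mem_bz {E : ℕ} {s : ℤ} : s ∈ bz E ↔ |s| ≤ E ∧ s ≠ 0 := by
  rw [bz, Finset.mem_filter, mem_bxN]

theorem sum_inv_int {E : ℕ} (hE : 1 ≤ E) :
    ∑ s ∈ bz E, 1 / |(s : ℝ)| ≤ 2 * (1 + Real.log E) := by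
  have hmaps : ∀ s ∈ bz E, s.natAbs ∈ Finset.Icc 1 E := by
    intro s hs
    obtain ⟨h3, h2⟩ := mem_bz.1 hs
    rw [Finset.mem_Icc]
    rw [Int.abs_eq_natAbs] at h3
    exact ⟨Nat.one_le_iff_ne_zero.2 (Int.natAbs_ne_zero.2 h2), by exact_mod_cast h3⟩
  rw [← Finset.sum_fiberwise_of_maps_to hmaps]
  have h1 : ∀ n ∈ Finset.Icc 1 E, ∑ s ∈ (bz E).filter (fun s => s.natAbs = n), 1 / |(s : ℝ)| ≤
      2 * (1 / (n : ℝ)) := by
    intro n _
    have e1 : ∑ s ∈ (bz E).filter (fun s => s.natAbs = n), 1 / |(s : ℝ)| =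
        ∑ _s ∈ (bz E).filter (fun s => s.natAbs = n), 1 / (n : ℝ) := by
      refine Finset.sum_congr rfl fun s hs => ?_
      have := (Finset.mem_filter.1 hs).2
      rw [← this, Nat.cast_natAbs, Int.cast_abs]
    rw [e1, Finset.sum_const, nsmul_eq_mul]
    apply mul_le_mul_of_nonneg_right _ (by positivity)
    have h2 : (bz E).filter (fun s => s.natAbs = n) ⊆ {(n : ℤ), -(n : ℤ)} := by
      intro s hs
      have := (Finset.mem_filter.1 hs).2
      rw [Finset.mem_insert, Finset.mem_singleton]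
      omega
    have h3 := Finset.card_le_card h2
    have h4 : ({(n : ℤ), -(n : ℤ)} : Finset ℤ).card ≤ 2 := Finset.card_le_two
    exact_mod_cast h3.trans h4
  refine (Finset.sum_le_sum h1).trans ?_
  rw [← Finset.mul_sum]
  apply mul_le_mul_of_nonneg_left _ (by norm_num)
  have h5 := harmonic_le_one_add_log E
  have h6 : ((harmonic E : ℚ) : ℝ) = ∑ n ∈ Finset.Icc 1 E, 1 / (n : ℝ) := by
    rw [harmonic_eq_sum_Icc]
    push_cast
    refine Finset.sum_congr rfl fun n _ => ?_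
    rw [one_div]
  rw [← h6]; exact h5

theorem log_pow {ε : ℝ} (hε : 0 < ε) : ∃ C : ℝ, 0 < C ∧ ∀ N : ℕ, 1 ≤ N →
    1 + Real.log ((15 * N ^ 2 : ℕ) : ℝ) ≤ C * (N : ℝ) ^ ε := by
  refine ⟨1 + Real.log 15 + 2 / ε, by positivity, fun N hN => ?_⟩
  have hN1 : (1 : ℝ) ≤ N := by exact_mod_cast hN
  have hN0 : (0 : ℝ) < N := by linarith
  have h1 : Real.log ((15 * N ^ 2 : ℕ) : ℝ) = Real.log 15 + 2 * Real.log N := by
    push_cast
    rw [Real.log_mul (by norm_num) (by positivity), Real.log_pow]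
    push_cast; ring
  rw [h1]
  have h2 := Real.log_le_rpow_div hN0.le hε
  have h3 : (1 : ℝ) ≤ (N : ℝ) ^ ε := Real.one_le_rpow hN1 hε.le
  have h4 : 0 ≤ Real.log 15 := Real.log_nonneg (by norm_num)
  calc 1 + (Real.log 15 + 2 * Real.log N) ≤ 1 + (Real.log 15 + 2 * ((N : ℝ) ^ ε / ε)) := by linarith
    _ ≤ (1 + Real.log 15) * (N : ℝ) ^ ε + 2 * ((N : ℝ) ^ ε / ε) := by nlinarith
    _ = _ := by ring

theorem sum_mw {ε : ℝ} (hε : 0 < ε) : ∃ C : ℝ, 0 < C ∧ ∀ (N : ℕ) (W : Finset (ℤ × (ℤ × ℤ))),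
    1 ≤ N → (∀ w ∈ W, |w.1| ≤ N ∧ |w.2.1| ≤ N ∧ |w.2.2| ≤ N ∧ w.2.1 * w.2.2 ≠ 0 ∧ mw w ≠ 0) →
    ∑ w ∈ W, 1 / |((mw w : ℤ) : ℝ)| ≤ C * (N : ℝ) ^ (1 + ε) := by
  obtain ⟨c, hc, hpd⟩ := prod_div (ε := ε / 4) (by positivity)
  obtain ⟨c2, hc2, hlog⟩ := log_pow (ε := ε / 2) (by positivity)
  refine ⟨3 * (c * 4 ^ (ε / 4)) * (2 * c2), by positivity, ?_⟩
  intro N W hN hW
  have hN1 : (1 : ℝ) ≤ N := by exact_mod_cast hN
  have hN0 : (0 : ℝ) < N := by linarith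
  set K : ℝ := c * ((4 * N ^ 2 : ℕ) : ℝ) ^ (ε / 4) with hK
  have hK0 : 0 ≤ K := by positivity
  have hmaps : ∀ w ∈ W, (w.1, mw w) ∈ bxN N ×ˢ bz (15 * N ^ 2) := by
    intro w hw
    obtain ⟨h1, h2, h3, -, h5⟩ := hW w hw
    rw [Finset.mem_product, mem_bxN, mem_bz]
    refine ⟨h1, ?_, h5⟩
    have a1 : |w.2.1 * w.2.2| ≤ (N : ℤ) ^ 2 := by
      rw [abs_mul, sq]; exact mul_le_mul h2 h3 (abs_nonneg _) (by positivity)
    have a2 : |w.1 * w.1| ≤ (N : ℤ) ^ 2 := by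
      rw [abs_mul, sq]; exact mul_le_mul h1 h1 (abs_nonneg _) (by positivity)
    have a3 := abs_add_le (4 * (w.2.1 * w.2.2)) (w.1 * w.1)
    rw [abs_mul 4, abs_of_pos (by norm_num : (0 : ℤ) < 4)] at a3
    have a4 : mw w = 4 * (w.2.1 * w.2.2) + w.1 * w.1 := by simp only [mw]; ring
    show |mw w| ≤ _
    rw [a4]; push_cast; nlinarith [sq_nonneg (N : ℤ)]
  rw [← Finset.sum_fiberwise_of_maps_to hmaps]
  have hfib : ∀ p ∈ bxN N ×ˢ bz (15 * N ^ 2),
      ∑ w ∈ W.filter (fun w => (w.1, mw w) = p), 1 / |((mw w : ℤ) : ℝ)| ≤ K * (1 / |(p.2 : ℝ)|) := by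
    intro p _
    have e1 : ∑ w ∈ W.filter (fun w => (w.1, mw w) = p), 1 / |((mw w : ℤ) : ℝ)| =
        ∑ _w ∈ W.filter (fun w => (w.1, mw w) = p), 1 / |(p.2 : ℝ)| := by
      refine Finset.sum_congr rfl fun w hw => ?_
      have := (Finset.mem_filter.1 hw).2
      rw [← this]
    rw [e1, Finset.sum_const, nsmul_eq_mul]
    apply mul_le_mul_of_nonneg_right _ (by positivity)
    rcases (W.filter (fun w => (w.1, mw w) = p)).eq_empty_or_nonempty with h0 | ⟨w0, hw0⟩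
    · rw [h0]; simpa using hK0
    obtain ⟨hw0W, hw0p⟩ := Finset.mem_filter.1 hw0
    obtain ⟨g1, g2, g3, g4, g5⟩ := hW w0 hw0W
    have hp1 : p.1 = w0.1 := by rw [← hw0p]
    have hp2 : p.2 = mw w0 := by rw [← hw0p]
    have hinj : Set.InjOn (fun w : ℤ × (ℤ × ℤ) => (4 * w.2.1, w.2.2))
        (W.filter (fun w => (w.1, mw w) = p)) := by
      intro w hw w' hw' h
      have h1 := (Finset.mem_filter.1 hw).2
      have h2 := (Finset.mem_filter.1 hw').2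
      simp only [Prod.mk.injEq] at h
      have h3 : w.1 = w'.1 := by
        exact (Prod.mk.inj (h1.trans h2.symm)).1
      exact Prod.ext h3 (Prod.ext (by omega) h.2)
    rw [← Finset.card_image_of_injOn hinj]
    have hne : 4 * w0.2.1 * w0.2.2 ≠ 0 := by
      rw [mul_assoc]; exact mul_ne_zero (by norm_num) g4
    have h1 := hpd (4 * w0.2.1 * w0.2.2)
      ((W.filter (fun w => (w.1, mw w) = p)).image (fun w : ℤ × (ℤ × ℤ) => (4 * w.2.1, w.2.2)))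
      hne (by
        intro q hq
        obtain ⟨w, hw, rfl⟩ := Finset.mem_image.1 hq
        have h1 := (Finset.mem_filter.1 hw).2
        have h2 : w.1 = w0.1 := by rw [← hp1, ← h1]
        have h3 : mw w = mw w0 := by rw [← hp2, ← h1]
        simp only [mw, h2] at h3
        simp only
        linarith)
    refine h1.trans ?_
    rw [hK]
    apply mul_le_mul_of_nonneg_left _ hc.le
    apply Real.rpow_le_rpow (abs_nonneg _) _ (by positivity)
    have a1 : |w0.2.1 * w0.2.2| ≤ (N : ℤ) ^ 2 := by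
      rw [abs_mul, sq]; exact mul_le_mul g2 g3 (abs_nonneg _) (by positivity)
    have a2 : |4 * w0.2.1 * w0.2.2| ≤ 4 * (N : ℤ) ^ 2 := by
      rw [mul_assoc, abs_mul, abs_of_pos (by norm_num : (0 : ℤ) < 4)]; omega
    exact_mod_cast a2
  refine (Finset.sum_le_sum hfib).trans ?_
  rw [← Finset.mul_sum, Finset.sum_product]
  simp only [Finset.sum_const, card_bxN, nsmul_eq_mul]
  have hs := sum_inv_int (E := 15 * N ^ 2) (by nlinarith [Nat.one_le_pow 2 N hN])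
  have hl := hlog N hN
  have e1 : ((4 * N ^ 2 : ℕ) : ℝ) ^ (ε / 4) = 4 ^ (ε / 4) * (N : ℝ) ^ (ε / 2) := by
    push_cast
    rw [Real.mul_rpow (by norm_num) (by positivity), ← Real.rpow_natCast (N : ℝ) 2,
      ← Real.rpow_mul hN0.le]
    congr 2; push_cast; ring
  have e2 : (N : ℝ) ^ (1 + ε) = N * (N : ℝ) ^ (ε / 2) * (N : ℝ) ^ (ε / 2) := by
    have : (N : ℝ) ^ (1 + ε) = (N : ℝ) ^ (1 + ε / 2 + ε / 2) := by congr 1; ring
    rw [this, Real.rpow_add hN0, Real.rpow_add hN0, Real.rpow_one]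
  have h3 : ((2 * N + 1 : ℕ) : ℝ) ≤ 3 * N := by push_cast; linarith
  have hs0 : 0 ≤ ∑ s ∈ bz (15 * N ^ 2), 1 / |(s : ℝ)| := Finset.sum_nonneg fun s _ => by positivity
  calc K * (((2 * N + 1 : ℕ) : ℝ) * ∑ s ∈ bz (15 * N ^ 2), 1 / |(s : ℝ)|)
      ≤ K * ((3 * N) * (2 * (c2 * (N : ℝ) ^ (ε / 2)))) := by
        apply mul_le_mul_of_nonneg_left _ hK0
        apply mul_le_mul h3 _ hs0 (by positivity)
        refine hs.trans ?_
        apply mul_le_mul_of_nonneg_left hl (by norm_num)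
    _ = _ := by rw [hK, e1, e2]; ring

end Pool.Agent.PP5X
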