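import Pool.Agent.PP5X.DsC

/-!
# PP5X/DsD: the sum of `1 / |fv (v w)|`
-/

set_option autoImplicit false

namespace Pool.Agent.PP5X

open Finset Pool.Agent.PP5L

theorem pair_count {N r : ℕ} {u s : ℤ} (hr : 1 ≤ r) (hg : ∃ a b : ℤ, (r : ℤ) ∣ a * u + b * s - 1)
    {S : Finset (ℤ × ℤ)} (hS : ∀ p ∈ S, |p.1| ≤ N ∧ |p.2| ≤ N ∧ (r : ℤ) ∣ u * p.1 + s * p.2) :
    S.card * r ≤ (2 * (N + r) + 1) ^ 2 := by
  classical
  obtain ⟨a, b, hab⟩ := hg
  have hr0 : (0 : ℤ) < r := by exact_mod_cast hr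
  have e1 : (S ×ˢ (Finset.range r)).card = S.card * r := by
    rw [Finset.card_product, Finset.card_range]
  have e2 : (bxN (N + r) ×ˢ bxN (N + r)).card = (2 * (N + r) + 1) ^ 2 := by
    rw [Finset.card_product, card_bxN]; ring
  rw [← e1, ← e2]
  apply Finset.card_le_card_of_injOn
    (fun z : (ℤ × ℤ) × ℕ => (z.1.1 + (a * z.2) % r, z.1.2 + (b * z.2) % r))
  · intro z hz
    rw [Finset.mem_coe, Finset.mem_product] at hz
    obtain ⟨h1, h2, -⟩ := hS z.1 hz.1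
    have c1 := Int.emod_nonneg (a * z.2) hr0.ne'
    have c2 := Int.emod_lt_of_pos (a * z.2) hr0
    have c3 := Int.emod_nonneg (b * z.2) hr0.ne'
    have c4 := Int.emod_lt_of_pos (b * z.2) hr0
    rw [abs_le] at h1 h2
    rw [Finset.mem_coe, Finset.mem_product, mem_bxN, mem_bxN, abs_le, abs_le]
    push_cast
    refine ⟨⟨?_, ?_⟩, ⟨?_, ?_⟩⟩ <;> linarith
  · intro z hz z' hz' h
    rw [Finset.mem_coe, Finset.mem_product] at hz hz'
    simp only [Prod.mk.injEq] at h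
    obtain ⟨g1, g2⟩ := h
    have d1 := (hS z.1 hz.1).2.2
    have d2 := (hS z'.1 hz'.1).2.2
    have k1 : (r : ℤ) ∣ a * z.2 - (a * z.2) % r := Int.dvd_self_sub_emod
    have k2 : (r : ℤ) ∣ b * z.2 - (b * z.2) % r := Int.dvd_self_sub_emod
    have k3 : (r : ℤ) ∣ a * z'.2 - (a * z'.2) % r := Int.dvd_self_sub_emod
    have k4 : (r : ℤ) ∣ b * z'.2 - (b * z'.2) % r := Int.dvd_self_sub_emod
    have key : (r : ℤ) ∣ (z.2 : ℤ) - z'.2 := by
      have e : (z.2 : ℤ) - z'.2 = -((a * u + b * s - 1) * ((z.2 : ℤ) - z'.2)) +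
          (u * (a * z.2 - (a * z.2) % r) + s * (b * z.2 - (b * z.2) % r)) -
          (u * (a * z'.2 - (a * z'.2) % r) + s * (b * z'.2 - (b * z'.2) % r)) -
          (u * z.1.1 + s * z.1.2) + (u * z'.1.1 + s * z'.1.2) +
          (u * ((z.1.1 + (a * z.2) % r) - (z'.1.1 + (a * z'.2) % r)) +
            s * ((z.1.2 + (b * z.2) % r) - (z'.1.2 + (b * z'.2) % r))) := by ring
      rw [e, g1, g2, sub_self, sub_self, mul_zero, mul_zero, add_zero, add_zero]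
      refine Dvd.dvd.add (Dvd.dvd.sub (Dvd.dvd.sub (Dvd.dvd.add ?_ ?_) ?_) ?_) ?_
      · exact (Dvd.dvd.mul_right hab _).neg_right
      · exact Dvd.dvd.add (Dvd.dvd.mul_left k1 _) (Dvd.dvd.mul_left k2 _)
      · exact Dvd.dvd.add (Dvd.dvd.mul_left k3 _) (Dvd.dvd.mul_left k4 _)
      · exact d1
      · exact d2
    have l1 := Finset.mem_range.1 hz.2
    have l2 := Finset.mem_range.1 hz'.2
    have heq : z.2 = z'.2 := by
      have : |(z.2 : ℤ) - z'.2| < r := by rw [abs_lt]; constructor <;> omega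
      have := Int.eq_zero_of_abs_lt_dvd key this
      omega
    rw [heq] at g1 g2
    exact Prod.ext (Prod.ext (by linarith) (by linarith)) heq

/-- `v` is primitive -/
def Pr3 (v : Fin 3 → ℤ) : Prop := ∃ a b c : ℤ, a * v 0 + b * v 1 + c * v 2 = 1

theorem orth_prim {N r : ℕ} {v : Fin 3 → ℤ} (hp : Pr3 v) (hr : 1 ≤ r) {k : Fin 3}
    (hk : |v k| = r) {S : Finset (ℤ × (ℤ × ℤ))}
    (hS : ∀ w ∈ S, |w.1| ≤ N ∧ |w.2.1| ≤ N ∧ |w.2.2| ≤ N ∧
      w.2.1 * v 0 - w.2.2 * v 1 - w.1 * v 2 = 0) : S.card * r ≤ (2 * (N + r) + 1) ^ 2 := by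
  classical
  obtain ⟨a, b, c, habc⟩ := hp
  have hvk : v k ≠ 0 := by
    intro h0; rw [h0, abs_zero] at hk; omega
  have hdv : ∀ z : ℤ, v k ∣ z → (r : ℤ) ∣ z := by
    intro z hz; rw [← hk]; exact (abs_dvd _ _).2 hz
  fin_cases k
  · simp only [Fin.zero_eta] at hk hvk hdv
    have hinj : Set.InjOn (fun w : ℤ × (ℤ × ℤ) => (w.2.2, w.1)) S := by
      intro w hw w' hw' h
      have e1 := (hS w hw).2.2.2
      have e2 := (hS w' hw').2.2.2
      simp only [Prod.mk.injEq] at h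
      refine Prod.ext h.2 (Prod.ext (mul_right_cancel₀ hvk ?_) h.1)
      rw [h.1, h.2] at e1
      linarith
    rw [← Finset.card_image_of_injOn hinj]
    apply pair_count (u := v 1) (s := v 2) hr
    · refine ⟨b, c, hdv _ ⟨-a, ?_⟩⟩
      linear_combination habc
    · intro p hp
      obtain ⟨w, hw, rfl⟩ := Finset.mem_image.1 hp
      obtain ⟨h1, h2, h3, h4⟩ := hS w hw
      refine ⟨h3, h1, hdv _ ⟨w.2.1, ?_⟩⟩
      simp only
      linear_combination -h4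
  · simp only [Fin.mk_one] at hk hvk hdv
    have hinj : Set.InjOn (fun w : ℤ × (ℤ × ℤ) => (w.2.1, w.1)) S := by
      intro w hw w' hw' h
      have e1 := (hS w hw).2.2.2
      have e2 := (hS w' hw').2.2.2
      simp only [Prod.mk.injEq] at h
      refine Prod.ext h.2 (Prod.ext h.1 (mul_right_cancel₀ hvk ?_))
      rw [h.1, h.2] at e1
      linarith
    rw [← Finset.card_image_of_injOn hinj]
    apply pair_count (u := v 0) (s := -v 2) hr
    · refine ⟨a, -c, hdv _ ⟨-b, ?_⟩⟩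
      linear_combination habc
    · intro p hp
      obtain ⟨w, hw, rfl⟩ := Finset.mem_image.1 hp
      obtain ⟨h1, h2, h3, h4⟩ := hS w hw
      refine ⟨h2, h1, hdv _ ⟨w.2.2, ?_⟩⟩
      simp only
      linear_combination h4
  · simp only [Fin.reduceFinMk] at hk hvk hdv
    have hinj : Set.InjOn (fun w : ℤ × (ℤ × ℤ) => (w.2.1, w.2.2)) S := by
      intro w hw w' hw' h
      have e1 := (hS w hw).2.2.2
      have e2 := (hS w' hw').2.2.2
      simp only [Prod.mk.injEq] at h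
      refine Prod.ext (mul_right_cancel₀ hvk ?_) (Prod.ext h.1 h.2)
      rw [h.1, h.2] at e1
      linarith
    rw [← Finset.card_image_of_injOn hinj]
    apply pair_count (u := v 0) (s := -v 1) hr
    · refine ⟨a, -b, hdv _ ⟨-c, ?_⟩⟩
      linear_combination habc
    · intro p hp
      obtain ⟨w, hw, rfl⟩ := Finset.mem_image.1 hp
      obtain ⟨h1, h2, h3, h4⟩ := hS w hw
      refine ⟨h2, h3, hdv _ ⟨w.1, ?_⟩⟩
      simp only
      linear_combination h4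

/-- Siegel vector, primitive -/
theorem siegel3p (N : ℕ) (hN : 1 ≤ N) (w : ℤ × (ℤ × ℤ)) (h1 : |w.1| ≤ N) (h2 : |w.2.1| ≤ N)
    (h3 : |w.2.2| ≤ N) : ∃ v : Fin 3 → ℤ, Pr3 v ∧ w.2.1 * v 0 - w.2.2 * v 1 - w.1 * v 2 = 0 ∧
      ∀ i, |v i| ≤ (Nat.sqrt (3 * N) : ℕ) := by
  obtain ⟨v, hv, ho, hb⟩ := siegel3 N hN w h1 h2 h3
  set g : ℤ := ((Int.gcd (v 0) ((Int.gcd (v 1) (v 2) : ℕ) : ℤ) : ℕ) : ℤ) with hg
  obtain ⟨A', B', g1⟩ : ∃ A' B' : ℤ, (Int.gcd (v 1) (v 2) : ℤ) = v 1 * A' + v 2 * B' :=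
    ⟨_, _, Int.gcd_eq_gcd_ab _ _⟩
  obtain ⟨A, B, g0⟩ : ∃ A B : ℤ, g = v 0 * A + (Int.gcd (v 1) (v 2) : ℤ) * B :=
    ⟨_, _, Int.gcd_eq_gcd_ab _ _⟩
  have d0 : g ∣ v 0 := Int.gcd_dvd_left ..
  have d12 : g ∣ (Int.gcd (v 1) (v 2) : ℤ) := Int.gcd_dvd_right ..
  have d1 : g ∣ v 1 := d12.trans (Int.gcd_dvd_left ..)
  have d2 : g ∣ v 2 := d12.trans (Int.gcd_dvd_right ..)
  have hg0 : g ≠ 0 := by
    intro h0
    rw [h0] at d0 d1 d2
    apply hv
    funext i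
    fin_cases i
    · exact zero_dvd_iff.1 d0
    · exact zero_dvd_iff.1 d1
    · exact zero_dvd_iff.1 d2
  obtain ⟨a0, ha0⟩ := d0
  obtain ⟨a1, ha1⟩ := d1
  obtain ⟨a2, ha2⟩ := d2
  refine ⟨![a0, a1, a2], ?_, ?_, ?_⟩
  · refine ⟨A, A' * B, B' * B, ?_⟩
    simp only [Matrix.cons_val_zero, Matrix.cons_val_one, Matrix.cons_val]
    apply mul_left_cancel₀ hg0
    rw [g1] at g0
    linear_combination -g0 - A * ha0 - A' * B * ha1 - B' * B * ha2
  · simp only [Matrix.cons_val_zero, Matrix.cons_val_one, Matrix.cons_val]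
    apply mul_left_cancel₀ hg0
    linear_combination ho - w.2.1 * ha0 + w.2.2 * ha1 + w.1 * ha2
  · have hle : ∀ a z : ℤ, z = g * a → |a| ≤ |z| := by
      intro a z h
      rw [h, abs_mul]
      exact le_mul_of_one_le_left (abs_nonneg _) (Int.one_le_abs hg0)
    intro i
    fin_cases i
    · exact (hle _ _ ha0).trans (hb 0)
    · exact (hle _ _ ha1).trans (hb 1)
    · exact (hle _ _ ha2).trans (hb 2)

end Pool.Agent.PP5X
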