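import Pool.Agent.PP5X.DsD

/-!
# PP5X/DsE: the sum of `1 / |fv (v w)|`
-/

set_option autoImplicit false

namespace Pool.Agent.PP5X

open Finset Pool.Agent.PP5L

/-- `1 / max(1, |t|)` -/
noncomputable def iv (t : ℤ) : ℝ := 1 / max 1 |(t : ℝ)|

theorem iv_nonneg (t : ℤ) : 0 ≤ iv t := by unfold iv; positivity

theorem sum_iv {E : ℕ} (hE : 1 ≤ E) : ∑ t ∈ bxN E, iv t ≤ 3 * (1 + Real.log E) := by
  classical
  have h1 : bxN E = insert 0 (bz E) := by
    ext s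
    rw [Finset.mem_insert, mem_bz, mem_bxN]
    constructor
    · intro h
      by_cases h0 : s = 0
      · exact Or.inl h0
      · exact Or.inr ⟨h, h0⟩
    · rintro (h | h)
      · rw [h]; simp
      · exact h.1
  have h2 : (0 : ℤ) ∉ bz E := by rw [mem_bz]; simp
  rw [h1, Finset.sum_insert h2]
  have h3 : iv 0 = 1 := by unfold iv; simp
  have h4 : ∑ t ∈ bz E, iv t = ∑ t ∈ bz E, 1 / |(t : ℝ)| := by
    refine Finset.sum_congr rfl fun t ht => ?_
    have h5 := (mem_bz.1 ht).2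
    have h6 : (1 : ℝ) ≤ |(t : ℝ)| := by exact_mod_cast Int.one_le_abs h5
    unfold iv
    rw [max_eq_right h6]
  rw [h3, h4]
  have h5 := sum_inv_int hE
  have h6 : 0 ≤ Real.log E := Real.log_natCast_nonneg E
  linarith

/-- the largest coordinate -/
def rv (v : Fin 3 → ℤ) : ℕ := Finset.univ.sup (fun i => (v i).natAbs)

theorem le_rv (v : Fin 3 → ℤ) (i : Fin 3) : (v i).natAbs ≤ rv v :=
  Finset.le_sup (f := fun i => (v i).natAbs) (Finset.mem_univ i)

theorem ex_rv (v : Fin 3 → ℤ) : ∃ k, |v k| = rv v := by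
  obtain ⟨k, -, hk⟩ := Finset.exists_mem_eq_sup Finset.univ ⟨0, Finset.mem_univ _⟩
    (fun i => (v i).natAbs)
  refine ⟨k, ?_⟩
  unfold rv
  rw [hk, Int.abs_eq_natAbs]

theorem le_rv' (v : Fin 3 → ℤ) (i : Fin 3) : |(v i : ℝ)| ≤ rv v := by
  have h := le_rv v i
  have e : |(v i : ℝ)| = ((v i).natAbs : ℝ) := by rw [Nat.cast_natAbs, Int.cast_abs]
  rw [e]; exact_mod_cast h

/-- the sum over the vectors `v` -/
theorem sum_v {ε : ℝ} (hε : 0 < ε) : ∃ C : ℝ, 0 < C ∧ ∀ (N : ℕ) (S : Finset (Fin 3 → ℤ)),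
    1 ≤ N → (∀ v ∈ S, (∀ i, |v i| ≤ (Nat.sqrt (3 * N) : ℕ)) ∧ 1 ≤ rv v ∧ fv v ≠ 0) →
    ∑ v ∈ S, 1 / ((rv v : ℝ) * |((fv v : ℤ) : ℝ)|) ≤ C * (N : ℝ) ^ ε := by
  classical
  obtain ⟨c, hc, hpd⟩ := prod_div (ε := ε / 4) (by positivity)
  obtain ⟨c2, hc2, hlog⟩ := log_pow (ε := ε / 4) (by positivity)
  refine ⟨(c * 15 ^ (ε / 4)) * 6 * c2 ^ 2 + 12 * c2 ^ 2, by positivity, ?_⟩
  intro N S hN hS
  have hN1 : (1 : ℝ) ≤ N := by exact_mod_cast hN
  have hN0 : (0 : ℝ) < N := by linarith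
  have hNZ : (1 : ℤ) ≤ N := by exact_mod_cast hN
  set V : ℕ := Nat.sqrt (3 * N) with hV
  have hVsq : V * V ≤ 3 * N := Nat.sqrt_le (3 * N)
  set E : ℕ := 15 * N ^ 2 with hE
  have hN2 : N ≤ N ^ 2 := by nlinarith
  have hE1 : 1 ≤ E := by omega
  have hVE : V ≤ E := by nlinarith
  set L : ℝ := 1 + Real.log (E : ℝ) with hL
  have hLC : L ≤ c2 * (N : ℝ) ^ (ε / 4) := hlog N hN
  have hL0 : 0 ≤ L := by have := Real.log_natCast_nonneg E; rw [hL]; linarith
  have hVV : ∀ v ∈ S, ∀ i j, |v i * v j| ≤ 3 * (N : ℤ) := by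
    intro v hv i j
    rw [abs_mul]
    have := mul_le_mul ((hS v hv).1 i) ((hS v hv).1 j) (abs_nonneg _) (by positivity : (0 : ℤ) ≤ (V : ℤ))
    have h2 : (V : ℤ) * V ≤ 3 * N := by exact_mod_cast hVsq
    omega
  have hfE : ∀ v ∈ S, |fv v| ≤ E := by
    intro v hv
    have a1 := hVV v hv 0 1
    have a2 := hVV v hv 2 2
    have a3 := abs_add_le (4 * (v 0 * v 1)) (v 2 * v 2)
    rw [abs_mul 4, abs_of_pos (by norm_num : (0 : ℤ) < 4)] at a3
    have a4 : fv v = 4 * (v 0 * v 1) + v 2 * v 2 := by simp only [fv]; ring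
    have h5 : (N : ℤ) ≤ (N : ℤ) ^ 2 := by exact_mod_cast hN2
    rw [a4, hE]; push_cast; omega
  set K : ℝ := c * ((15 * N ^ 2 : ℕ) : ℝ) ^ (ε / 4) with hK
  have hK0 : 0 ≤ K := by positivity
  -- part a
  have pa : ∑ v ∈ S with v 0 * v 1 ≠ 0, 1 / ((rv v : ℝ) * |((fv v : ℤ) : ℝ)|) ≤
      K * ((3 * L) * (2 * L)) := by
    have h1 : ∀ v ∈ S.filter (fun v => v 0 * v 1 ≠ 0), 1 / ((rv v : ℝ) * |((fv v : ℤ) : ℝ)|) ≤
        iv (v 2) * (1 / |((fv v : ℤ) : ℝ)|) := by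
      intro v hv
      obtain ⟨hvS, -⟩ := Finset.mem_filter.1 hv
      obtain ⟨-, h2, h3⟩ := hS v hvS
      have h4 : (1 : ℝ) ≤ rv v := by exact_mod_cast h2
      have h5 : (0 : ℝ) < |((fv v : ℤ) : ℝ)| := abs_pos.2 (by exact_mod_cast h3)
      unfold iv
      rw [one_div_mul_one_div]
      apply one_div_le_one_div_of_le (by positivity)
      exact mul_le_mul_of_nonneg_right (max_le h4 (le_rv' v 2)) h5.le
    refine (Finset.sum_le_sum h1).trans ?_
    have hmaps : ∀ v ∈ S.filter (fun v => v 0 * v 1 ≠ 0), (v 2, fv v) ∈ bxN E ×ˢ bz E := by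
      intro v hv
      obtain ⟨hvS, -⟩ := Finset.mem_filter.1 hv
      obtain ⟨g1, -, g3⟩ := hS v hvS
      rw [Finset.mem_product, mem_bxN, mem_bz]
      have := g1 2
      exact ⟨by show |v 2| ≤ _; omega, hfE v hvS, g3⟩
    rw [← Finset.sum_fiberwise_of_maps_to hmaps]
    have hfib : ∀ p ∈ bxN E ×ˢ bz E, ∑ v ∈ (S.filter (fun v => v 0 * v 1 ≠ 0)).filter
        (fun v => (v 2, fv v) = p), iv (v 2) * (1 / |((fv v : ℤ) : ℝ)|) ≤
        K * (iv p.1 * (1 / |(p.2 : ℝ)|)) := by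
      intro p _
      set F := (S.filter (fun v => v 0 * v 1 ≠ 0)).filter (fun v => (v 2, fv v) = p) with hF
      have e1 : ∑ v ∈ F, iv (v 2) * (1 / |((fv v : ℤ) : ℝ)|) =
          ∑ _v ∈ F, iv p.1 * (1 / |(p.2 : ℝ)|) := by
        refine Finset.sum_congr rfl fun v hv => ?_
        have := (Finset.mem_filter.1 hv).2
        rw [← this]
      rw [e1, Finset.sum_const, nsmul_eq_mul]
      apply mul_le_mul_of_nonneg_right _ (mul_nonneg (iv_nonneg _) (by positivity))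
      rcases F.eq_empty_or_nonempty with h0 | ⟨v0, hv0⟩
      · rw [h0]; simpa using hK0
      obtain ⟨hv0', hv0p⟩ := Finset.mem_filter.1 hv0
      obtain ⟨hv0S, hv0n⟩ := Finset.mem_filter.1 hv0'
      have hp1 : p.1 = v0 2 := by rw [← hv0p]
      have hp2 : p.2 = fv v0 := by rw [← hv0p]
      have hinj : Set.InjOn (fun v : Fin 3 → ℤ => (4 * v 0, v 1)) F := by
        intro v hv v' hv' h
        have h1 := (Finset.mem_filter.1 hv).2
        have h2 := (Finset.mem_filter.1 hv').2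
        simp only [Prod.mk.injEq] at h
        have h3 : v 2 = v' 2 := (Prod.mk.inj (h1.trans h2.symm)).1
        funext i
        fin_cases i
        · show v 0 = v' 0
          omega
        · exact h.2
        · exact h3
      rw [← Finset.card_image_of_injOn hinj]
      have hne : 4 * v0 0 * v0 1 ≠ 0 := by
        rw [mul_assoc]; exact mul_ne_zero (by norm_num) hv0n
      have h1 := hpd (4 * v0 0 * v0 1) (F.image (fun v : Fin 3 → ℤ => (4 * v 0, v 1))) hne (by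
          intro q hq
          obtain ⟨v, hv, rfl⟩ := Finset.mem_image.1 hq
          have h1 := (Finset.mem_filter.1 hv).2
          have h2 : v 2 = v0 2 := by rw [← hp1, ← h1]
          have h3 : fv v = fv v0 := by rw [← hp2, ← h1]
          simp only [fv, h2] at h3
          simp only
          linarith)
      refine h1.trans ?_
      rw [hK]
      apply mul_le_mul_of_nonneg_left _ hc.le
      apply Real.rpow_le_rpow (abs_nonneg _) _ (by positivity)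
      have a1 := hVV v0 hv0S 0 1
      have a2 : |4 * v0 0 * v0 1| ≤ 15 * (N : ℤ) ^ 2 := by
        rw [mul_assoc, abs_mul, abs_of_pos (by norm_num : (0 : ℤ) < 4)]
        have h5 : (N : ℤ) ≤ (N : ℤ) ^ 2 := by exact_mod_cast hN2
        omega
      exact_mod_cast a2
    refine (Finset.sum_le_sum hfib).trans ?_
    rw [← Finset.mul_sum]
    apply mul_le_mul_of_nonneg_left _ hK0
    rw [Finset.sum_product]
    simp only [← Finset.mul_sum]
    rw [← Finset.sum_mul]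
    exact mul_le_mul (sum_iv hE1) (sum_inv_int hE1) (Finset.sum_nonneg fun s _ => by positivity)
      (by positivity)
  -- part b
  have pb : ∑ v ∈ S with ¬ v 0 * v 1 ≠ 0, 1 / ((rv v : ℝ) * |((fv v : ℤ) : ℝ)|) ≤
      2 * ((3 * L) * (2 * L)) := by
    have hz : ∀ v ∈ S.filter (fun v => ¬ v 0 * v 1 ≠ 0), (v 0 = 0 ∨ v 1 = 0) ∧ v 2 ≠ 0 ∧
        fv v = v 2 ^ 2 := by
      intro v hv
      obtain ⟨hvS, h0⟩ := Finset.mem_filter.1 hv
      push Not at h0
      have h1 : fv v = v 2 ^ 2 := by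
        simp only [fv]; linear_combination 4 * h0
      refine ⟨mul_eq_zero.1 h0, ?_, h1⟩
      intro h2
      apply (hS v hvS).2.2
      rw [h1, h2]; ring
    have h1 : ∀ v ∈ S.filter (fun v => ¬ v 0 * v 1 ≠ 0), 1 / ((rv v : ℝ) * |((fv v : ℤ) : ℝ)|) ≤
        iv (v 0 + v 1) * (1 / |((v 2 : ℤ) : ℝ)|) := by
      intro v hv
      obtain ⟨hvS, -⟩ := Finset.mem_filter.1 hv
      obtain ⟨z1, z2, z3⟩ := hz v hv
      obtain ⟨-, h2, h3⟩ := hS v hvS
      have h4 : (1 : ℝ) ≤ rv v := by exact_mod_cast h2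
      have h5 : (1 : ℝ) ≤ |((v 2 : ℤ) : ℝ)| := by exact_mod_cast Int.one_le_abs z2
      have h6 : |((fv v : ℤ) : ℝ)| = |((v 2 : ℤ) : ℝ)| ^ 2 := by
        rw [z3]; push_cast; rw [abs_pow]
      have h7 : |(((v 0 + v 1 : ℤ)) : ℝ)| ≤ rv v := by
        rcases z1 with h | h
        · rw [h, zero_add]; exact le_rv' v 1
        · rw [h, add_zero]; exact le_rv' v 0
      unfold iv
      rw [one_div_mul_one_div]
      apply one_div_le_one_div_of_le (by positivity)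
      rw [h6]
      apply mul_le_mul (max_le h4 h7) _ (by positivity) (by positivity)
      nlinarith
    refine (Finset.sum_le_sum h1).trans ?_
    have hmaps : ∀ v ∈ S.filter (fun v => ¬ v 0 * v 1 ≠ 0), (v 0 + v 1, v 2) ∈ bxN E ×ˢ bz E := by
      intro v hv
      obtain ⟨hvS, -⟩ := Finset.mem_filter.1 hv
      obtain ⟨z1, z2, z3⟩ := hz v hv
      obtain ⟨g1, -, g3⟩ := hS v hvS
      rw [Finset.mem_product, mem_bxN, mem_bz]
      have a0 := g1 0
      have a1 := g1 1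
      have a2 := g1 2
      refine ⟨?_, ?_, z2⟩
      · show |v 0 + v 1| ≤ _
        rcases z1 with h | h
        · rw [h, zero_add]; omega
        · rw [h, add_zero]; omega
      · show |v 2| ≤ _
        omega
    rw [← Finset.sum_fiberwise_of_maps_to hmaps]
    have hfib : ∀ p ∈ bxN E ×ˢ bz E, ∑ v ∈ (S.filter (fun v => ¬ v 0 * v 1 ≠ 0)).filter
        (fun v => (v 0 + v 1, v 2) = p), iv (v 0 + v 1) * (1 / |((v 2 : ℤ) : ℝ)|) ≤
        2 * (iv p.1 * (1 / |(p.2 : ℝ)|)) := by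
      intro p _
      set F := (S.filter (fun v => ¬ v 0 * v 1 ≠ 0)).filter (fun v => (v 0 + v 1, v 2) = p) with hF
      have e1 : ∑ v ∈ F, iv (v 0 + v 1) * (1 / |((v 2 : ℤ) : ℝ)|) =
          ∑ _v ∈ F, iv p.1 * (1 / |(p.2 : ℝ)|) := by
        refine Finset.sum_congr rfl fun v hv => ?_
        have := (Finset.mem_filter.1 hv).2
        rw [← this]
      rw [e1, Finset.sum_const, nsmul_eq_mul]
      apply mul_le_mul_of_nonneg_right _ (mul_nonneg (iv_nonneg _) (by positivity))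
      have h2 : F ⊆ {![p.1, 0, p.2], ![0, p.1, p.2]} := by
        intro v hv
        obtain ⟨hv1, hv2⟩ := Finset.mem_filter.1 hv
        obtain ⟨z1, -, -⟩ := hz v hv1
        have h3 := Prod.mk.inj (hv2.trans (Prod.mk.eta (p := p)).symm)
        rw [Finset.mem_insert, Finset.mem_singleton]
        rcases z1 with h | h
        · right
          funext i
          fin_cases i
          · exact h
          · show v 1 = p.1
            have := h3.1
            omega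
          · exact h3.2
        · left
          funext i
          fin_cases i
          · show v 0 = p.1
            have := h3.1
            omega
          · exact h
          · exact h3.2
      have h3 := (Finset.card_le_card h2).trans Finset.card_le_two
      exact_mod_cast h3
    refine (Finset.sum_le_sum hfib).trans ?_
    rw [← Finset.mul_sum]
    apply mul_le_mul_of_nonneg_left _ (by norm_num)
    rw [Finset.sum_product]
    simp only [← Finset.mul_sum]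
    rw [← Finset.sum_mul]
    exact mul_le_mul (sum_iv hE1) (sum_inv_int hE1) (Finset.sum_nonneg fun s _ => by positivity)
      (by positivity)
  rw [← Finset.sum_filter_add_sum_filter_not S (fun v => v 0 * v 1 ≠ 0)]
  have e1 : ((15 * N ^ 2 : ℕ) : ℝ) ^ (ε / 4) = 15 ^ (ε / 4) * (N : ℝ) ^ (ε / 2) := by
    push_cast
    rw [Real.mul_rpow (by norm_num) (by positivity), ← Real.rpow_natCast (N : ℝ) 2,
      ← Real.rpow_mul hN0.le]
    congr 2; push_cast; ring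
  have e2 : ((N : ℝ) ^ (ε / 4)) ^ 2 = (N : ℝ) ^ (ε / 2) := by
    rw [← Real.rpow_natCast, ← Real.rpow_mul hN0.le]; congr 1; push_cast; ring
  have e3 : (N : ℝ) ^ (ε / 2) * (N : ℝ) ^ (ε / 2) = (N : ℝ) ^ ε := by
    rw [← Real.rpow_add hN0]; congr 1; ring
  have hLL : L ^ 2 ≤ c2 ^ 2 * (N : ℝ) ^ (ε / 2) := by
    calc L ^ 2 ≤ (c2 * (N : ℝ) ^ (ε / 4)) ^ 2 := pow_le_pow_left₀ hL0 hLC 2
      _ = _ := by rw [mul_pow, e2]
  have h9 : (1 : ℝ) ≤ (N : ℝ) ^ (ε / 2) := Real.one_le_rpow hN1 (by positivity)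
  have hA : K * ((3 * L) * (2 * L)) ≤ (c * 15 ^ (ε / 4)) * 6 * c2 ^ 2 * (N : ℝ) ^ ε := by
    calc K * ((3 * L) * (2 * L)) = K * 6 * L ^ 2 := by ring
      _ ≤ K * 6 * (c2 ^ 2 * (N : ℝ) ^ (ε / 2)) := mul_le_mul_of_nonneg_left hLL (by positivity)
      _ = (c * 15 ^ (ε / 4)) * 6 * c2 ^ 2 * ((N : ℝ) ^ (ε / 2) * (N : ℝ) ^ (ε / 2)) := by
          rw [hK, e1]; ring
      _ = _ := by rw [e3]
  have hB : 2 * ((3 * L) * (2 * L)) ≤ 12 * c2 ^ 2 * (N : ℝ) ^ ε := by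
    calc 2 * ((3 * L) * (2 * L)) = 12 * L ^ 2 := by ring
      _ ≤ 12 * (c2 ^ 2 * (N : ℝ) ^ (ε / 2)) := mul_le_mul_of_nonneg_left hLL (by norm_num)
      _ ≤ 12 * (c2 ^ 2 * ((N : ℝ) ^ (ε / 2) * (N : ℝ) ^ (ε / 2))) := by
          apply mul_le_mul_of_nonneg_left _ (by norm_num)
          apply mul_le_mul_of_nonneg_left _ (by positivity)
          nlinarith
      _ = _ := by rw [e3]; ring
  calc _ ≤ K * ((3 * L) * (2 * L)) + 2 * ((3 * L) * (2 * L)) := add_le_add pa pb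
    _ ≤ _ := by linarith

theorem sum_fv {ε : ℝ} (hε : 0 < ε) : ∃ C : ℝ, 0 < C ∧ ∀ (N : ℕ) (W : Finset (ℤ × (ℤ × ℤ)))
    (vf : ℤ × (ℤ × ℤ) → Fin 3 → ℤ),
    1 ≤ N → (∀ w ∈ W, |w.1| ≤ N ∧ |w.2.1| ≤ N ∧ |w.2.2| ≤ N ∧ Pr3 (vf w) ∧
      w.2.1 * vf w 0 - w.2.2 * vf w 1 - w.1 * vf w 2 = 0 ∧
      (∀ i, |vf w i| ≤ (Nat.sqrt (3 * N) : ℕ)) ∧ fv (vf w) ≠ 0) →
    ∑ w ∈ W, 1 / |((fv (vf w) : ℤ) : ℝ)| ≤ C * (N : ℝ) ^ (2 + ε) := by
  classical
  obtain ⟨C, hC, hv⟩ := sum_v hε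
  refine ⟨49 * C, by positivity, ?_⟩
  intro N W vf hN hW
  have hN1 : (1 : ℝ) ≤ N := by exact_mod_cast hN
  have hN0 : (0 : ℝ) < N := by linarith
  have hVsq : Nat.sqrt (3 * N) * Nat.sqrt (3 * N) ≤ 3 * N := Nat.sqrt_le (3 * N)
  have hrv : ∀ w ∈ W, 1 ≤ rv (vf w) := by
    intro w hw
    obtain ⟨-, -, -, ⟨a, b, c, h⟩, -⟩ := hW w hw
    by_contra h0
    have h1 : ∀ i, vf w i = 0 := by
      intro i
      have := le_rv (vf w) i
      omega
    rw [h1 0, h1 1, h1 2] at h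
    omega
  have hmaps : ∀ w ∈ W, vf w ∈ W.image vf := fun w hw => Finset.mem_image_of_mem _ hw
  rw [← Finset.sum_fiberwise_of_maps_to hmaps]
  have hfib : ∀ v ∈ W.image vf, ∑ w ∈ W.filter (fun w => vf w = v), 1 / |((fv (vf w) : ℤ) : ℝ)| ≤
      49 * (N : ℝ) ^ 2 * (1 / ((rv v : ℝ) * |((fv v : ℤ) : ℝ)|)) := by
    intro v hv
    obtain ⟨w0, hw0, rfl⟩ := Finset.mem_image.1 hv
    set F := W.filter (fun w => vf w = vf w0) with hF
    have e1 : ∑ w ∈ F, 1 / |((fv (vf w) : ℤ) : ℝ)| = ∑ _w ∈ F, 1 / |((fv (vf w0) : ℤ) : ℝ)| := by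
      refine Finset.sum_congr rfl fun w hw => ?_
      rw [(Finset.mem_filter.1 hw).2]
    rw [e1, Finset.sum_const, nsmul_eq_mul]
    obtain ⟨k, hk⟩ := ex_rv (vf w0)
    obtain ⟨-, -, -, g4, -, g6, g7⟩ := hW w0 hw0
    have hr1 := hrv w0 hw0
    have h1 := orth_prim (N := N) (S := F) g4 hr1 hk (by
      intro w hw
      obtain ⟨hwW, hwv⟩ := Finset.mem_filter.1 hw
      obtain ⟨a1, a2, a3, -, a5, -⟩ := hW w hwW
      rw [hwv] at a5
      exact ⟨a1, a2, a3, a5⟩)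
    have hr2 : rv (vf w0) ≤ 2 * N := by
      have h2 := g6 k
      rw [hk] at h2
      have h3 : rv (vf w0) ≤ Nat.sqrt (3 * N) := by exact_mod_cast h2
      nlinarith
    have h3 : (F.card : ℝ) * rv (vf w0) ≤ 49 * (N : ℝ) ^ 2 := by
      have h4 : (F.card : ℝ) * rv (vf w0) ≤ (2 * (N + rv (vf w0)) + 1) ^ 2 := by exact_mod_cast h1
      have h5 : (rv (vf w0) : ℝ) ≤ 2 * N := by exact_mod_cast hr2
      have h6 : (2 * ((N : ℝ) + rv (vf w0)) + 1) ≤ 7 * N := by linarith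
      have h7 : (0 : ℝ) ≤ 2 * ((N : ℝ) + rv (vf w0)) + 1 := by positivity
      calc _ ≤ (2 * ((N : ℝ) + rv (vf w0)) + 1) ^ 2 := h4
        _ ≤ (7 * N) ^ 2 := pow_le_pow_left₀ h7 h6 2
        _ = _ := by ring
    have h4 : (1 : ℝ) ≤ rv (vf w0) := by exact_mod_cast hr1
    have h5 : (0 : ℝ) < |((fv (vf w0) : ℤ) : ℝ)| := abs_pos.2 (by exact_mod_cast g7)
    rw [mul_one_div, mul_one_div, div_le_div_iff₀ h5 (by positivity)]
    calc (F.card : ℝ) * (rv (vf w0) * |((fv (vf w0) : ℤ) : ℝ)|)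
        = (F.card : ℝ) * rv (vf w0) * |((fv (vf w0) : ℤ) : ℝ)| := by ring
      _ ≤ _ := mul_le_mul_of_nonneg_right h3 h5.le
  refine (Finset.sum_le_sum hfib).trans ?_
  rw [← Finset.mul_sum]
  have h1 := hv N (W.image vf) hN (by
    intro v hv
    obtain ⟨w0, hw0, rfl⟩ := Finset.mem_image.1 hv
    obtain ⟨-, -, -, g4, -, g6, g7⟩ := hW w0 hw0
    exact ⟨g6, hrv w0 hw0, g7⟩)
  calc 49 * (N : ℝ) ^ 2 * ∑ v ∈ W.image vf, 1 / ((rv v : ℝ) * |((fv v : ℤ) : ℝ)|)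
      ≤ 49 * (N : ℝ) ^ 2 * (C * (N : ℝ) ^ ε) := mul_le_mul_of_nonneg_left h1 (by positivity)
    _ = 49 * C * ((N : ℝ) ^ 2 * (N : ℝ) ^ ε) := by ring
    _ = _ := by
      rw [← Real.rpow_natCast (N : ℝ) 2, ← Real.rpow_add hN0]
      norm_num

end Pool.Agent.PP5X
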