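import Pool.Agent.PP5X.DsA

/-!
# PP5X/FzA: the isotropic `x` of a box with `f D(x)` a square
-/

set_option autoImplicit false

namespace Pool.Agent.PP5X

open Finset Pool.Agent.PP5L

/-- the number of points of a line -/
theorem fz_line {ε : ℝ} (hε : 0 < ε) : ∃ C : ℝ, 0 < C ∧ ∀ (a b c : ℤ) (L : ℝ) (S : Finset ℤ),
    1 ≤ L → |(a : ℝ)| ≤ L → |(b : ℝ)| ≤ L → |(c : ℝ)| ≤ L → a ≠ 0 → ¬ IsSquare a →
    (∀ t ∈ S, |(t : ℝ)| ≤ L ∧ IsSquare (a * t ^ 2 + b * t + c)) → (S.card : ℝ) ≤ C * L ^ ε := by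
  obtain ⟨c1, hc1, h⟩ := quad_sq_count hε
  refine ⟨c1 + 1, by positivity, ?_⟩
  intro a b c L S hL ha hb hc ha0 hns hS
  have hL1 : 1 ≤ L ^ ε := Real.one_le_rpow hL hε.le
  by_cases hΔ : b ^ 2 - 4 * a * c = 0
  · have h1 : S.card ≤ 1 := by
      rw [Finset.card_le_one]
      intro t ht t' ht'
      have e1 := square_zero_disc hns hΔ (hS t ht).2
      have e2 := square_zero_disc hns hΔ (hS t' ht').2
      have e3 : 2 * a * t = 2 * a * t' := by linarith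
      exact mul_left_cancel₀ (by simpa using ha0) e3
    have h2 : (S.card : ℝ) ≤ 1 := by exact_mod_cast h1
    have : (0 : ℝ) ≤ c1 * L ^ ε := by positivity
    nlinarith
  · have h1 := h a b c L S hL ha hb hc ha0 hΔ hS
    nlinarith

theorem sh_bound {N : ℤ} {x : Fin 10 → ℤ} {v : Fin 3 → ℤ} (hx : ∀ j, |x j| ≤ N)
    (hv : ∀ i, |v i| ≤ 2 * N) (j : Fin 10) : |sh x v 1 j| ≤ 3 * N := by
  have hN : 0 ≤ N := (abs_nonneg _).trans (hx 0)
  have e : ∀ a b : ℤ, |a| ≤ N → |b| ≤ 2 * N → |a + 1 * b| ≤ 3 * N := by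
    intro a b h1 h2
    rw [one_mul]
    have := abs_add_le a b; omega
  have e' : ∀ z : ℤ, |z| ≤ N → |z| ≤ 3 * N := fun z hz => by omega
  fin_cases j
  · exact e' _ (hx 0)
  · exact e' _ (hx 1)
  · exact e _ _ (hx 2) (hv 0)
  · exact e _ _ (hx 3) (hv 1)
  · exact e' _ (hx 4)
  · exact e' _ (hx 5)
  · exact e' _ (hx 6)
  · exact e' _ (hx 7)
  · exact e' _ (hx 8)
  · exact e _ _ (hx 9) (hv 2)

theorem coef_bound {N : ℤ} {x : Fin 10 → ℤ} {v : Fin 3 → ℤ} (hx : ∀ j, |x j| ≤ N)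
    (hv : ∀ i, |v i| ≤ 2 * N) : |(SS x).det| ≤ 10 ^ 7 * N ^ 4 ∧ |lead x v| ≤ 10 ^ 7 * N ^ 4 ∧
      |linc x v| ≤ 10 ^ 7 * N ^ 4 := by
  have hN : 0 ≤ N := (abs_nonneg _).trans (hx 0)
  have h4 : (0 : ℤ) ≤ N ^ 4 := by positivity
  have hd0 : |(SS x).det| ≤ 24 * (2 * N) ^ 4 := det_bound hx
  have hd1 : |(SS (sh x v 1)).det| ≤ 24 * (2 * (3 * N)) ^ 4 := det_bound (sh_bound hx hv)
  have e1 : 24 * (2 * (3 * N)) ^ 4 = 31104 * N ^ 4 := by ring
  have e2 : 24 * (2 * N) ^ 4 = 384 * N ^ 4 := by ring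
  rw [e1] at hd1
  rw [e2] at hd0
  have hla : |lead x v| ≤ 100 * N ^ 4 := by
    simp only [lead]
    rw [abs_mul]
    have f1 : |4 * v 0 * v 1 + v 2 ^ 2| ≤ 20 * N ^ 2 := by
      have a1 : |v 0 * v 1| ≤ 4 * N ^ 2 := by
        rw [abs_mul]
        have := mul_le_mul (hv 0) (hv 1) (abs_nonneg _) (by positivity)
        linarith
      have a2 : |v 2 * v 2| ≤ 4 * N ^ 2 := by
        rw [abs_mul]
        have := mul_le_mul (hv 2) (hv 2) (abs_nonneg _) (by positivity)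
        linarith
      have a3 := abs_add_le (4 * (v 0 * v 1)) (v 2 * v 2)
      rw [abs_mul 4, abs_of_pos (by norm_num : (0 : ℤ) < 4)] at a3
      have a4 : 4 * v 0 * v 1 + v 2 ^ 2 = 4 * (v 0 * v 1) + v 2 * v 2 := by ring
      rw [a4]; linarith
    have f2 : |4 * x 0 * x 1 + x 6 ^ 2| ≤ 5 * N ^ 2 := by
      have a1 : |x 0 * x 1| ≤ N ^ 2 := by
        rw [abs_mul, sq]; exact mul_le_mul (hx 0) (hx 1) (abs_nonneg _) hN
      have a2 : |x 6 * x 6| ≤ N ^ 2 := by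
        rw [abs_mul, sq]; exact mul_le_mul (hx 6) (hx 6) (abs_nonneg _) hN
      have a3 := abs_add_le (4 * (x 0 * x 1)) (x 6 * x 6)
      rw [abs_mul 4, abs_of_pos (by norm_num : (0 : ℤ) < 4)] at a3
      have a4 : 4 * x 0 * x 1 + x 6 ^ 2 = 4 * (x 0 * x 1) + x 6 * x 6 := by ring
      rw [a4]; linarith
    calc |4 * v 0 * v 1 + v 2 ^ 2| * |4 * x 0 * x 1 + x 6 ^ 2|
        ≤ (20 * N ^ 2) * (5 * N ^ 2) :=
          mul_le_mul f1 f2 (abs_nonneg _) (by positivity)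
      _ = 100 * N ^ 4 := by ring
  refine ⟨by linarith, by linarith, ?_⟩
  simp only [linc]
  have a1 := abs_sub ((SS (sh x v 1)).det - (SS x).det) (lead x v)
  have a2 := abs_sub ((SS (sh x v 1)).det) ((SS x).det)
  linarith

theorem fz_w {ε : ℝ} (hε : 0 < ε) : ∃ C : ℝ, 0 < C ∧ ∀ (f : ℤ) (N : ℕ) (X : Finset (Fin 10 → ℤ))
    (w : ℤ × (ℤ × ℤ)) (v : Fin 3 → ℤ), 1 ≤ N → v ≠ 0 → f ≠ 0 →
    w.2.1 * v 0 - w.2.2 * v 1 - w.1 * v 2 = 0 → (∀ i, |v i| ≤ (Nat.sqrt (3 * N) : ℕ)) →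
    fv v * mw w ≠ 0 → ¬ IsSquare (f * (fv v * mw w)) →
    (∀ x ∈ X, (∀ j, |x j| ≤ N) ∧ FF x = 0 ∧ wx x = w ∧ IsSquare (f * (SS x).det)) →
    (X.card : ℝ) ≤ C * |(f : ℝ)| ^ ε * (N : ℝ) ^ (9 / 2 + ε) := by
  obtain ⟨c1, hc1, h1⟩ := lines_w (ε := ε / 2) (by positivity)
  obtain ⟨c2, hc2, h2⟩ := fz_line (ε := ε / 8) (by positivity)
  refine ⟨c1 * (c2 * (10 ^ 7 : ℝ) ^ (ε / 8)), by positivity, ?_⟩
  intro f N X w v hN hv0 hf hwv hvV ha hns hX
  have hN1 : (1 : ℝ) ≤ N := by exact_mod_cast hN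
  have hN0 : (0 : ℝ) < N := by linarith
  have hNZ : (1 : ℤ) ≤ N := by exact_mod_cast hN
  have hf1 : (1 : ℝ) ≤ |(f : ℝ)| := by exact_mod_cast Int.one_le_abs hf
  set L : ℝ := 10 ^ 7 * |(f : ℝ)| * (N : ℝ) ^ 4 with hL
  have hN4 : (1 : ℝ) ≤ (N : ℝ) ^ 4 := one_le_pow₀ hN1
  have hL1 : 1 ≤ L := by
    rw [hL]
    have : (1 : ℝ) ≤ |(f : ℝ)| * (N : ℝ) ^ 4 := one_le_mul_of_one_le_of_one_le hf1 hN4
    nlinarith
  set V : ℕ := Nat.sqrt (3 * N) with hV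
  have hVsq : V * V ≤ 3 * N := Nat.sqrt_le (3 * N)
  have hVN : V ≤ 2 * N := by nlinarith
  have hv : ∀ i, |v i| ≤ 2 * (N : ℤ) := fun i => by have := hvV i; omega
  have hvne : ∃ k, v k ≠ 0 := by
    by_contra h0
    push Not at h0
    exact hv0 (funext h0)
  have h3 := h1 N X w v (c2 * L ^ (ε / 8)) hN hv0 (by positivity) hwv hvV
    (fun x hx => ⟨(hX x hx).1, (hX x hx).2.1, (hX x hx).2.2.1⟩) (by
      intro y hy S hS
      -- base point on the line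
      rcases S.eq_empty_or_nonempty with h0 | ⟨t0, ht0⟩
      · rw [h0]; simp only [Finset.card_empty, Nat.cast_zero]; positivity
      obtain ⟨x0, hx0⟩ : ∃ x0, x0 = sh y v t0 := ⟨_, rfl⟩
      obtain ⟨b0, b1, b2, b3⟩ := hX x0 (by rw [hx0]; exact hS t0 ht0)
      set S' := S.image (fun t => t - t0) with hS'
      have hcard : S'.card = S.card :=
        Finset.card_image_of_injective _ (fun a b h => by simpa using h)
      have hmem : ∀ s ∈ S', sh x0 v s ∈ X := by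
        intro s hs
        obtain ⟨t, ht, rfl⟩ := Finset.mem_image.1 hs
        rw [hx0, sh_sh]
        have : t0 + (t - t0) = t := by ring
        rw [this]; exact hS t ht
      have hlead : lead x0 v = fv v * mw w := by
        rw [← b2]; simp [lead, fv, mw, wx]
      rw [← hcard]
      obtain ⟨hdd, hla', hli⟩ := coef_bound b0 hv
      have hbig : ∀ z : ℤ, |z| ≤ 10 ^ 7 * (N : ℤ) ^ 4 → |((f * z : ℤ) : ℝ)| ≤ L := by
        intro z hz
        have h1 : |(z : ℝ)| ≤ 10 ^ 7 * (N : ℝ) ^ 4 := by exact_mod_cast hz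
        push_cast
        rw [abs_mul, hL]
        calc |(f : ℝ)| * |(z : ℝ)| ≤ |(f : ℝ)| * (10 ^ 7 * (N : ℝ) ^ 4) :=
              mul_le_mul_of_nonneg_left h1 (abs_nonneg _)
          _ = _ := by ring
      apply h2 (f * lead x0 v) (f * linc x0 v) (f * (SS x0).det) L S' hL1 (hbig _ hla')
        (hbig _ hli) (hbig _ hdd)
      · rw [hlead]; exact mul_ne_zero hf ha
      · rw [hlead]; exact hns
      · intro s hs
        constructor
        · obtain ⟨k, hk⟩ := hvne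
          have h4 := (hX _ (hmem s hs)).1 (cidx k)
          rw [sh_cidx] at h4
          have h5 := b0 (cidx k)
          have h6 : |s * v k| ≤ 2 * N := by
            have := abs_sub (x0 (cidx k) + s * v k) (x0 (cidx k))
            rw [add_sub_cancel_left] at this
            linarith
          have h7 : |s| ≤ 2 * N := by
            rw [abs_mul] at h6
            have := Int.one_le_abs hk
            nlinarith [abs_nonneg s]
          have h8 : |(s : ℝ)| ≤ 2 * N := by exact_mod_cast h7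
          have h9 : (N : ℝ) ≤ (N : ℝ) ^ 4 := le_self_pow₀ hN1 (by norm_num)
          rw [hL]
          have h10 : (N : ℝ) ^ 4 ≤ |(f : ℝ)| * (N : ℝ) ^ 4 := le_mul_of_one_le_left (by positivity) hf1
          nlinarith
        · have h4 := (hX _ (hmem s hs)).2.2.2
          rw [det_sh] at h4
          have e : f * (lead x0 v * s ^ 2 + linc x0 v * s + (SS x0).det) =
              f * lead x0 v * s ^ 2 + f * linc x0 v * s + f * (SS x0).det := by ring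
          rw [← e]; exact h4)
  refine h3.trans ?_
  have hLe : L ^ (ε / 8) = (10 ^ 7 : ℝ) ^ (ε / 8) * |(f : ℝ)| ^ (ε / 8) * (N : ℝ) ^ (ε / 2) := by
    rw [hL, Real.mul_rpow (by positivity) (by positivity), Real.mul_rpow (by positivity) (by positivity),
      ← Real.rpow_natCast (N : ℝ) 4, ← Real.rpow_mul hN0.le]
    congr 2; push_cast; ring
  have hfe : |(f : ℝ)| ^ (ε / 8) ≤ |(f : ℝ)| ^ ε :=
    Real.rpow_le_rpow_of_exponent_le hf1 (by linarith)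
  have hNe : (N : ℝ) ^ (9 / 2 + ε / 2) * (N : ℝ) ^ (ε / 2) = (N : ℝ) ^ (9 / 2 + ε) := by
    rw [← Real.rpow_add hN0]; congr 1; ring
  rw [hLe]
  calc c1 * (N : ℝ) ^ (9 / 2 + ε / 2) * (c2 * ((10 ^ 7 : ℝ) ^ (ε / 8) * |(f : ℝ)| ^ (ε / 8) *
        (N : ℝ) ^ (ε / 2))) = c1 * (c2 * (10 ^ 7 : ℝ) ^ (ε / 8)) * |(f : ℝ)| ^ (ε / 8) *
        ((N : ℝ) ^ (9 / 2 + ε / 2) * (N : ℝ) ^ (ε / 2)) := by ring
    _ ≤ c1 * (c2 * (10 ^ 7 : ℝ) ^ (ε / 8)) * |(f : ℝ)| ^ ε *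
        ((N : ℝ) ^ (9 / 2 + ε / 2) * (N : ℝ) ^ (ε / 2)) := by gcongr
    _ = _ := by rw [hNe]

end Pool.Agent.PP5X
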